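import Mathlib
import Pool.Agent.H71.TD.Ifc

/-!
Definitions for the random splitting of the parts into quarters (block SPL).

The vertices of every part are paired by `τ`, `E` contains exactly one vertex of each pair (in a nearly bipartite part the
vertices of the first side). A function `f : V → Fin 4` gives the quarters: the quarter of `v` depends on `f (rp τ E v)`.
-/

set_option autoImplicit false

namespace Pool.Agent.H65.SPL

open Finset Classical
open Pool.Agent.H71.DN Pool.Agent.H71.DX Pool.Agent.H71.DR Pool.Agent.H71.HL Pool.Agent.H71.DC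
open Pool.Agent.H71.TD

/-- A pairing `τ` of the vertices of the parts, and a set `E` with one vertex of each pair. -/
structure Pai {V : Type} (k : ℕ) (ty : ℕ → Prop) (nd : V → ℕ) (τ : V → V) (E : Finset V) :
    Prop where
  inv : ∀ v, τ (τ v) = v
  pr : ∀ v, nd (τ v) / 2 = nd v / 2
  mt : ∀ v, nd v < 2 * k → (v ∈ E ↔ τ v ∉ E)
  ex : ∀ v, ¬ nd v < 2 * k → τ v = v ∧ v ∈ E
  b0 : ∀ i < k, ¬ ty i → ∀ v, nd v = 2 * i → v ∈ E
  b1 : ∀ i < k, ¬ ty i → ∀ v, nd v = 2 * i + 1 → v ∉ E

/-- The representative of the pair of `v`. -/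
noncomputable def rp {V : Type} (τ : V → V) (E : Finset V) (v : V) : V :=
  if v ∈ E then v else τ v

/-- The quarter, given the type `t` of the part, the position `e` of the vertex in its pair and the random value `g`. -/
noncomputable def qv (t e : Prop) (g : Fin 4) : ℕ :=
  2 * ((g : ℕ) / 2) + if t then (if e then (g : ℕ) % 2 else 1 - (g : ℕ) % 2) else
    (if e then 0 else 1)

/-- The quarters given by `f`. -/
noncomputable def qq {V : Type} (k : ℕ) (ty : ℕ → Prop) (nd : V → ℕ) (τ : V → V) (E : Finset V)
    (f : V → Fin 4) (v : V) : ℕ :=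
  if nd v < 2 * k then qv (ty (nd v / 2)) (v ∈ E) (f (rp τ E v)) else 0

/-- The sign: `1` for the values `0, 1` and `-1` for the values `2, 3`. -/
noncomputable def sg (g : Fin 4) : ℝ := if (g : ℕ) < 2 then 1 else -1

end Pool.Agent.H65.SPL
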