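import Mathlib
import Pool.Agent.H65.SPL.Defs

/-!
SpD: the degrees in the graph `Fg` of the defect edges.

Proof. Let `nd v < 2 k`, `i := nd v / 2 < k`, `H := Hg G k ty nd`, `F := Fg G k ty nd`. The edges of `G` at `v` are the edges of `H` and the edges of `F` (`F.Adj a b` iff `G.Adj a b ∧ ¬ H.Adj a b`, and `H ≤ G`): `dg G v = dg H v + dg F v`, `dg G v = Δ` (`reg`). It remains to show `dgi G S v ≤ dg H v` for the set `S` in `e2`, `b2` or `b3`:
if `ty i` then `nd v = 2 i` (otherwise `v ∈ pt nd (2 i + 1) = ∅`), `S := pt nd (2 i)`: for `u ∈ S` with `G.Adj v u` we have `H.Adj v u`. If `¬ ty i` and `nd v = 2 i` then `S := pt nd (2 i + 1)`, if `nd v = 2 i + 1` then `S := pt nd (2 i)`; again `H.Adj v u`, as `nd v ≠ nd u`.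
-/

set_option autoImplicit false

namespace Pool.Agent.H65.SPL

open Finset Classical
open Pool.Agent.H71.DN Pool.Agent.H71.DX Pool.Agent.H71.DR Pool.Agent.H71.HL Pool.Agent.H71.DC
open Pool.Agent.H71.TD

private lemma Dg_core {V : Type} [Fintype V] (G : SimpleGraph V) (k : ℕ)
    (ty : ℕ → Prop) (nd : V → ℕ) (v : V) (S : Finset V)
    (hS : ∀ u ∈ S, G.Adj v u → (Hg G k ty nd).Adj v u) :
    dg (Fg G k ty nd) v + dgi G S v ≤ dg G v := by
  unfold dg dgi
  rw [← Finset.card_union_of_disjoint]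
  · apply Finset.card_le_card
    intro u hu
    rw [Finset.mem_union, Finset.mem_filter, Finset.mem_filter] at hu
    rw [Finset.mem_filter]
    rcases hu with hu | hu
    · exact ⟨Finset.mem_univ _, hu.2.1⟩
    · exact ⟨Finset.mem_univ _, hu.2⟩
  · rw [Finset.disjoint_left]
    intro u hu hu'
    rw [Finset.mem_filter] at hu hu'
    exact hu.2.2 (hS u hu'.1 hu'.2)

private lemma Dg_fin {V : Type} [Fintype V] (G : SimpleGraph V) (Δ : ℕ) (ξ : ℝ) (k : ℕ)
    (ty : ℕ → Prop) (nd : V → ℕ) (v : V) (S : Finset V) (hreg : dg G v = Δ)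
    (hS : ∀ u ∈ S, G.Adj v u → (Hg G k ty nd).Adj v u)
    (h : (Δ : ℝ) ≤ dgi G S v + ξ * Fintype.card V) :
    (dg (Fg G k ty nd) v : ℝ) ≤ ξ * Fintype.card V := by
  have h1 := Dg_core G k ty nd v S hS
  rw [hreg] at h1
  have h2 : (dg (Fg G k ty nd) v : ℝ) + dgi G S v ≤ Δ := by exact_mod_cast h1
  linarith

theorem spD {V : Type} [Fintype V] (G : SimpleGraph V) (Δ : ℕ) (c x ξ ζ f : ℝ) (k : ℕ)
    (ty : ℕ → Prop) (nd : V → ℕ) (sf : ℕ → Finset V) (h : Str G Δ c x ξ ζ f k ty nd sf) (v : V)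
    (hv : nd v < 2 * k) : (dg (Fg G k ty nd) v : ℝ) ≤ ξ * Fintype.card V := by
  have hi : nd v / 2 < k := by omega
  by_cases ht : ty (nd v / 2)
  · have h0 : nd v = 2 * (nd v / 2) := by
      rcases Nat.even_or_odd' (nd v) with ⟨m, hm | hm⟩
      · omega
      · exfalso
        have h1 := (h.e1 _ hi ht).1
        have h2 : v ∈ pt nd (2 * (nd v / 2) + 1) := by
          unfold pt
          rw [Finset.mem_filter]
          exact ⟨Finset.mem_univ _, by omega⟩
        rw [h1] at h2
        exact absurd h2 (Finset.notMem_empty _)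
    have hv' : v ∈ pt nd (2 * (nd v / 2)) := by
      unfold pt
      rw [Finset.mem_filter]
      exact ⟨Finset.mem_univ _, h0⟩
    refine Dg_fin G Δ ξ k ty nd v (pt nd (2 * (nd v / 2))) (h.reg v) ?_ (h.e2 _ hi ht v hv')
    intro u hu huv
    unfold pt at hu
    rw [Finset.mem_filter] at hu
    refine ⟨huv, hv, by omega, by omega, Or.inl ht⟩
  · rcases Nat.even_or_odd' (nd v) with ⟨m, hm | hm⟩
    · have hv' : v ∈ pt nd (2 * (nd v / 2)) := by
        unfold pt
        rw [Finset.mem_filter]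
        exact ⟨Finset.mem_univ _, by omega⟩
      refine Dg_fin G Δ ξ k ty nd v (pt nd (2 * (nd v / 2) + 1)) (h.reg v) ?_
        (h.b2 _ hi ht v hv')
      intro u hu huv
      unfold pt at hu
      rw [Finset.mem_filter] at hu
      refine ⟨huv, hv, by omega, by omega, Or.inr (by omega)⟩
    · have hv' : v ∈ pt nd (2 * (nd v / 2) + 1) := by
        unfold pt
        rw [Finset.mem_filter]
        exact ⟨Finset.mem_univ _, by omega⟩
      refine Dg_fin G Δ ξ k ty nd v (pt nd (2 * (nd v / 2))) (h.reg v) ?_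
        (h.b3 _ hi ht v hv')
      intro u hu huv
      unfold pt at hu
      rw [Finset.mem_filter] at hu
      refine ⟨huv, hv, by omega, by omega, Or.inr (by omega)⟩

end Pool.Agent.H65.SPL
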