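import Mathlib
import Pool.Agent.H65.SPL.Defs

/-!
SpM2: orthogonality of the signs and the second moment of a weighted sum.

Proof. `sg_sq`, `sg_add`: by cases over the four values. `orth`: the map `f ↦ Function.update f u (f u + 2)` is a bijection of `V → Fin 4` (its square is the identity as `g + 2 + 2 = g` in `Fin 4`), so `∑_f Φ f = ∑_f Φ (update f u (f u + 2)) = - ∑_f Φ f`
(`Function.Involutive.toPerm`, `Equiv.sum_comp`).
`spM2`: expand the square (`Finset.sum_mul_sum`, `pow_two`) and exchange the sums: `∑_f (..)² = ∑_{v, v' ∈ T} w v * w v' * ∑_f sg (f (ρ v)) * sg (f (ρ v'))`. For `ρ v ≠ ρ v'` the inner sum is `0` by `orth` with `u := ρ v` (the update changes `f (ρ v)` only, and `sg (g + 2) = - sg g`);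
for `ρ v = ρ v'` it is `4 ^ card V` (`sg_sq`). So the total is `4 ^ card V * ∑_{v ∈ T} w v * ∑_{v' ∈ T, ρ v' = ρ v} w v'`, and the inner sum is at most `2 * d` (at most two terms, each at most `d`; `0 ≤ d` if `T` is not empty).
-/

set_option autoImplicit false

namespace Pool.Agent.H65.SPL

open Finset Classical
open Pool.Agent.H71.DN Pool.Agent.H71.DX Pool.Agent.H71.DR Pool.Agent.H71.HL Pool.Agent.H71.DC
open Pool.Agent.H71.TD

theorem sg_sq (g : Fin 4) : sg g * sg g = 1 := by
  unfold sg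
  split_ifs <;> norm_num

theorem sg_add (g : Fin 4) : sg (g + 2) = - sg g := by
  fin_cases g <;> simp [sg]

theorem orth {V : Type} [Fintype V] (u : V) (Φ : (V → Fin 4) → ℝ)
    (h : ∀ f, Φ (Function.update f u (f u + 2)) = - Φ f) : ∑ f, Φ f = 0 := by
  have hinv : Function.Involutive (fun f : V → Fin 4 => Function.update f u (f u + 2)) := by
    intro f
    have h1 : (Function.update f u (f u + 2)) u = f u + 2 := Function.update_self _ _ _
    have h2 : ∀ g : Fin 4, g + 2 + 2 = g := by decide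
    simp only [h1, h2, Function.update_idem, Function.update_eq_self]
  have h1 : ∑ f, Φ (Function.update f u (f u + 2)) = ∑ f, Φ f :=
    Equiv.sum_comp (Function.Involutive.toPerm _ hinv) Φ
  have h2 : ∑ f, Φ (Function.update f u (f u + 2)) = ∑ f, - Φ f :=
    Finset.sum_congr rfl fun f _ => h f
  rw [h2, Finset.sum_neg_distrib] at h1
  linarith

private theorem spM2_inner {V : Type} [Fintype V] (ρ : V → V) (v v' : V) :
    ∑ f : V → Fin 4, sg (f (ρ v)) * sg (f (ρ v')) =
      if ρ v' = ρ v then (4 : ℝ) ^ Fintype.card V else 0 := by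
  by_cases h : ρ v' = ρ v
  · rw [if_pos h, h, Finset.sum_congr rfl fun f _ => sg_sq (f (ρ v)), Finset.sum_const,
      Finset.card_univ, Fintype.card_fun, Fintype.card_fin, nsmul_eq_mul, mul_one]
    push_cast
    rfl
  · rw [if_neg h]
    apply orth (ρ v)
    intro f
    rw [Function.update_self, Function.update_of_ne h, sg_add]
    ring

theorem spM2 {V : Type} [Fintype V] (ρ : V → V) (T : Finset V)
    (hρ : ∀ u, (T.filter fun v => ρ v = u).card ≤ 2) (w : V → ℝ) (d : ℝ)
    (hw : ∀ v ∈ T, 0 ≤ w v ∧ w v ≤ d) :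
    ∑ f : V → Fin 4, (∑ v ∈ T, w v * sg (f (ρ v))) ^ 2 ≤
      (4 : ℝ) ^ Fintype.card V * (2 * d * ∑ v ∈ T, w v) := by
  have h1 : ∀ f : V → Fin 4, (∑ v ∈ T, w v * sg (f (ρ v))) ^ 2 =
      ∑ v ∈ T, ∑ v' ∈ T, w v * w v' * (sg (f (ρ v)) * sg (f (ρ v'))) := by
    intro f
    rw [pow_two, Finset.sum_mul_sum]
    refine Finset.sum_congr rfl fun v _ => Finset.sum_congr rfl fun v' _ => ?_
    ring
  rw [Finset.sum_congr rfl fun f _ => h1 f, Finset.sum_comm]
  have h2 : ∀ v ∈ T, ∑ f : V → Fin 4, ∑ v' ∈ T, w v * w v' * (sg (f (ρ v)) * sg (f (ρ v'))) ≤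
      (4 : ℝ) ^ Fintype.card V * (2 * d * w v) := by
    intro v hv
    rw [Finset.sum_comm]
    have h3 : ∀ v' ∈ T, ∑ f : V → Fin 4, w v * w v' * (sg (f (ρ v)) * sg (f (ρ v'))) =
        w v * w v' * (if ρ v' = ρ v then (4 : ℝ) ^ Fintype.card V else 0) := by
      intro v' _
      rw [← Finset.mul_sum, spM2_inner]
    rw [Finset.sum_congr rfl h3]
    have h4 : ∑ v' ∈ T, w v * w v' * (if ρ v' = ρ v then (4 : ℝ) ^ Fintype.card V else 0) =
        ∑ v' ∈ T.filter (fun v' => ρ v' = ρ v), w v * w v' * (4 : ℝ) ^ Fintype.card V := by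
      rw [Finset.sum_filter]
      refine Finset.sum_congr rfl fun v' _ => ?_
      split_ifs <;> simp
    rw [h4]
    have hd : 0 ≤ d := (hw v hv).1.trans (hw v hv).2
    have hwv := (hw v hv).1
    have h5 : ∑ v' ∈ T.filter (fun v' => ρ v' = ρ v), w v * w v' * (4 : ℝ) ^ Fintype.card V ≤
        ∑ v' ∈ T.filter (fun v' => ρ v' = ρ v), w v * d * (4 : ℝ) ^ Fintype.card V := by
      apply Finset.sum_le_sum
      intro v' hv'
      have h6 := (hw v' (Finset.mem_filter.1 hv').1).2
      exact mul_le_mul_of_nonneg_right (mul_le_mul_of_nonneg_left h6 hwv) (by positivity)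
    refine h5.trans ?_
    rw [Finset.sum_const, nsmul_eq_mul]
    have h7 : ((T.filter (fun v' => ρ v' = ρ v)).card : ℝ) ≤ 2 := by exact_mod_cast hρ (ρ v)
    have h8 : 0 ≤ w v * d * (4 : ℝ) ^ Fintype.card V := by positivity
    have h9 := mul_le_mul_of_nonneg_right h7 h8
    refine h9.trans (le_of_eq ?_)
    ring
  refine (Finset.sum_le_sum h2).trans (le_of_eq ?_)
  rw [← Finset.mul_sum, ← Finset.mul_sum]

end Pool.Agent.H65.SPL
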