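import Mathlib
import Pool.Agent.H65.SPL.M2

/-!
SpG1, spG1b: the truncated differences `D - 8 Z` are bounded in the mean; Markov. Use the STATEMENT of `spM2` (`M2.lean`).

Proof of `spG1`. Let `D := #T`, `Z f := #{v ∈ T : σ * sg (f (ρ v)) = 1}`. As `sg` has the values `1` and `-1` and `σ = ± 1`: `∑_{v ∈ T} σ * sg (f (ρ v)) = 2 * Z f - D`, so `(2 Z f - D)² = (∑_{v ∈ T} sg (f (ρ v)))²` and by `spM2` (`w := 1`, `d := 1`) `∑_f (2 Z f - D)² ≤ 4 ^ n * (2 * D)`.
Pointwise `D * (D - 8 Z)₊ ≤ 16 / 9 * (2 Z - D)²`: if `8 Z < D` then `D - 2 Z ≥ 3 D / 4 ≥ 0`, and `D * (D - 8 Z) ≤ D² ≤ 16 / 9 * (2 Z - D)²`. So `D * ∑_f (D - 8 Z f) ≤ 16 / 9 * 4 ^ n * 2 * D`; divide by `D` (`32 / 9 ≤ 4`); for `D = 0` all terms are `0`.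
Proof of `spG1b`. `dgi G S w = #(S.filter (G.Adj w ·))`. With `T := (pt nd j).filter fun u => G.Adj w u` the two summands for `w, j` are `#T - 8 * #{v ∈ T : σ * sg (f (ρ v)) = 1}` for `σ = 1` and `σ = -1` (`-1 * s = 1` iff `s = -1`; commute the two filters). So by `spG1` the sum over `f` of the double sum is at most
`#(pt nd (2 k)) * (2 k) * (4 + 4) * 4 ^ n`. Markov: `y * #{f : y < S f} ≤ ∑_f S f`.
-/

set_option autoImplicit false

namespace Pool.Agent.H65.SPL

open Finset Classical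
open Pool.Agent.H71.DN Pool.Agent.H71.DX Pool.Agent.H71.DR Pool.Agent.H71.HL Pool.Agent.H71.DC
open Pool.Agent.H71.TD

private theorem g1_sg (g : Fin 4) : sg g = 1 ∨ sg g = -1 := by
  unfold sg
  by_cases h : (g : ℕ) < 2
  · left
    rw [if_pos h]
  · right
    rw [if_neg h]

private theorem g1_sum {V : Type} (T : Finset V) (s : V → ℝ) (hs : ∀ v, s v = 1 ∨ s v = -1) :
    ∑ v ∈ T, s v = 2 * ((T.filter fun v => s v = 1).card : ℝ) - (T.card : ℝ) := by
  have h1 : ∀ v ∈ T, s v = 2 * (if s v = 1 then (1 : ℝ) else 0) - 1 := by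
    intro v _
    rcases hs v with h | h
    · rw [if_pos h, h]
      norm_num
    · rw [if_neg (by rw [h]; norm_num), h]
      norm_num
  rw [Finset.sum_congr rfl h1, Finset.sum_sub_distrib, ← Finset.mul_sum, Finset.sum_boole]
  simp

private theorem g1_pt (D Z : ℕ) :
    (D : ℝ) * ((D - 8 * Z : ℕ) : ℝ) ≤ 16 / 9 * (2 * (Z : ℝ) - D) ^ 2 := by
  by_cases h : 8 * Z < D
  · rw [Nat.cast_sub h.le]
    push_cast
    have h1 : (8 : ℝ) * Z < D := by exact_mod_cast h
    have h2 : (0 : ℝ) ≤ Z := Nat.cast_nonneg Z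
    nlinarith
  · have h1 : D - 8 * Z = 0 := by omega
    rw [h1, Nat.cast_zero, mul_zero]
    positivity

theorem spG1 {V : Type} [Fintype V] (ρ : V → V) (T : Finset V)
    (hρ : ∀ u, (T.filter fun v => ρ v = u).card ≤ 2) (σ : ℝ) (hσ : σ = 1 ∨ σ = -1) :
    ∑ f : V → Fin 4, ((T.card - 8 * (T.filter fun v => σ * sg (f (ρ v)) = 1).card : ℕ) : ℝ) ≤
      4 * (4 : ℝ) ^ Fintype.card V := by
  have hsq : σ * σ = 1 := by
    rcases hσ with rfl | rfl <;> norm_num
  have h1 : ∀ f : V → Fin 4, (∑ v ∈ T, (1 : ℝ) * sg (f (ρ v))) ^ 2 =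
      (2 * ((T.filter fun v => σ * sg (f (ρ v)) = 1).card : ℝ) - (T.card : ℝ)) ^ 2 := by
    intro f
    have h2 := g1_sum T (fun v => σ * sg (f (ρ v))) (by
      intro v
      rcases hσ with rfl | rfl <;> rcases g1_sg (f (ρ v)) with h | h <;> rw [h] <;> norm_num)
    rw [← h2]
    simp only [one_mul]
    rw [← Finset.mul_sum, mul_pow, pow_two σ, hsq, one_mul]
  have h2 := spM2 ρ T hρ (fun _ => 1) 1 (fun v _ => ⟨zero_le_one, le_refl _⟩)
  rw [Finset.sum_congr rfl (fun f _ => h1 f)] at h2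
  rcases Nat.eq_zero_or_pos T.card with hD | hD
  · have h3 : ∀ f : V → Fin 4,
        ((T.card - 8 * (T.filter fun v => σ * sg (f (ρ v)) = 1).card : ℕ) : ℝ) = 0 := by
      intro f
      rw [hD, Nat.zero_sub, Nat.cast_zero]
    rw [Finset.sum_congr rfl (fun f _ => h3 f), Finset.sum_const_zero]
    positivity
  · have hD' : (0 : ℝ) < T.card := by exact_mod_cast hD
    have h3 : (T.card : ℝ) * ∑ f : V → Fin 4,
        ((T.card - 8 * (T.filter fun v => σ * sg (f (ρ v)) = 1).card : ℕ) : ℝ) ≤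
        16 / 9 * ((4 : ℝ) ^ Fintype.card V * (2 * 1 * ∑ v ∈ T, (1 : ℝ))) := by
      refine le_trans ?_ (mul_le_mul_of_nonneg_left h2 (by norm_num))
      rw [Finset.mul_sum, Finset.mul_sum]
      exact Finset.sum_le_sum fun f _ => g1_pt _ _
    have h4 : ∑ v ∈ T, (1 : ℝ) = T.card := by simp
    rw [h4] at h3
    have h5 : (0 : ℝ) < (4 : ℝ) ^ Fintype.card V := by positivity
    have h6 : (T.card : ℝ) * ∑ f : V → Fin 4,
        ((T.card - 8 * (T.filter fun v => σ * sg (f (ρ v)) = 1).card : ℕ) : ℝ) ≤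
        (T.card : ℝ) * (4 * (4 : ℝ) ^ Fintype.card V) := by
      refine h3.trans ?_
      have h7 : 0 < (4 : ℝ) ^ Fintype.card V * T.card := mul_pos h5 hD'
      nlinarith
    exact le_of_mul_le_mul_left h6 hD'

theorem spG1b {V : Type} [Fintype V] (G : SimpleGraph V) (k : ℕ) (nd : V → ℕ) (ρ : V → V)
    (hρ : ∀ u, (univ.filter fun v => ρ v = u).card ≤ 2) (y : ℝ) (hy : 0 < y) :
    ((univ.filter fun f : V → Fin 4 => y <
      ((∑ w ∈ pt nd (2 * k), ∑ j ∈ range (2 * k),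
        ((dgi G (pt nd j) w - 8 * dgi G ((pt nd j).filter fun v => sg (f (ρ v)) = 1) w) +
          (dgi G (pt nd j) w -
            8 * dgi G ((pt nd j).filter fun v => sg (f (ρ v)) = -1) w)) : ℕ) : ℝ)).card : ℝ) * y ≤
      16 * k * (pt nd (2 * k)).card * (4 : ℝ) ^ Fintype.card V := by
  obtain ⟨S, hS⟩ : ∃ S : (V → Fin 4) → ℕ, ∀ f, S f = ∑ w ∈ pt nd (2 * k), ∑ j ∈ range (2 * k),
        ((dgi G (pt nd j) w - 8 * dgi G ((pt nd j).filter fun v => sg (f (ρ v)) = 1) w) +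
          (dgi G (pt nd j) w -
            8 * dgi G ((pt nd j).filter fun v => sg (f (ρ v)) = -1) w)) := ⟨_, fun _ => rfl⟩
  have h0 : ∀ f, ((∑ w ∈ pt nd (2 * k), ∑ j ∈ range (2 * k),
        ((dgi G (pt nd j) w - 8 * dgi G ((pt nd j).filter fun v => sg (f (ρ v)) = 1) w) +
          (dgi G (pt nd j) w -
            8 * dgi G ((pt nd j).filter fun v => sg (f (ρ v)) = -1) w)) : ℕ) : ℝ) = (S f : ℝ) :=
    fun f => by rw [hS]
  simp only [h0]
  -- Markov
  have hM : ((univ.filter fun f : V → Fin 4 => y < (S f : ℝ)).card : ℝ) * y ≤ ∑ f, (S f : ℝ) := by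
    rw [← nsmul_eq_mul]
    refine le_trans (Finset.card_nsmul_le_sum _ (fun f => (S f : ℝ)) y ?_) ?_
    · intro f hf
      exact (Finset.mem_filter.1 hf).2.le
    · exact Finset.sum_le_sum_of_subset_of_nonneg (Finset.subset_univ _)
        (fun f _ _ => Nat.cast_nonneg _)
  refine hM.trans ?_
  have hpos : ∀ (w : V) (j : ℕ) (σ : ℝ), (σ = 1 ∨ σ = -1) →
      ∑ f : V → Fin 4, ((dgi G (pt nd j) w -
        8 * dgi G ((pt nd j).filter fun v => sg (f (ρ v)) = σ) w : ℕ) : ℝ) ≤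
        4 * (4 : ℝ) ^ Fintype.card V := by
    intro w j σ hσ
    obtain ⟨T, hT⟩ : ∃ T, T = (pt nd j).filter fun u => G.Adj w u := ⟨_, rfl⟩
    have h1 := spG1 ρ T (fun u => (Finset.card_le_card (Finset.filter_subset_filter _
      (Finset.subset_univ _))).trans (hρ u)) σ hσ
    refine le_trans (le_of_eq ?_) h1
    refine Finset.sum_congr rfl fun f _ => ?_
    have e1 : dgi G (pt nd j) w = T.card := by
      unfold dgi
      rw [← hT]
    have e2 : dgi G ((pt nd j).filter fun v => sg (f (ρ v)) = σ) w =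
        (T.filter fun v => σ * sg (f (ρ v)) = 1).card := by
      unfold dgi
      rw [Finset.filter_comm, ← hT]
      congr 1
      refine Finset.filter_congr fun v _ => ?_
      rcases hσ with rfl | rfl
      · rw [one_mul]
      · constructor
        · intro h
          rw [h]
          norm_num
        · intro h
          linarith
    rw [e1, e2]
  have h2 : ∑ f, (S f : ℝ) = ∑ w ∈ pt nd (2 * k), ∑ j ∈ range (2 * k),
      (∑ f : V → Fin 4, ((dgi G (pt nd j) w -
        8 * dgi G ((pt nd j).filter fun v => sg (f (ρ v)) = 1) w : ℕ) : ℝ) +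
      ∑ f : V → Fin 4, ((dgi G (pt nd j) w -
        8 * dgi G ((pt nd j).filter fun v => sg (f (ρ v)) = -1) w : ℕ) : ℝ)) := by
    have h3 : ∀ f ∈ (Finset.univ : Finset (V → Fin 4)), (S f : ℝ) =
        ∑ w ∈ pt nd (2 * k), ∑ j ∈ range (2 * k),
        (((dgi G (pt nd j) w -
          8 * dgi G ((pt nd j).filter fun v => sg (f (ρ v)) = 1) w : ℕ) : ℝ) +
        ((dgi G (pt nd j) w -
          8 * dgi G ((pt nd j).filter fun v => sg (f (ρ v)) = -1) w : ℕ) : ℝ)) := by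
      intro f _
      rw [hS, Nat.cast_sum]
      refine Finset.sum_congr rfl fun w _ => ?_
      rw [Nat.cast_sum]
      refine Finset.sum_congr rfl fun j _ => ?_
      rw [Nat.cast_add]
    rw [Finset.sum_congr rfl h3, Finset.sum_comm]
    refine Finset.sum_congr rfl fun w _ => ?_
    rw [Finset.sum_comm]
    refine Finset.sum_congr rfl fun j _ => ?_
    rw [Finset.sum_add_distrib]
  rw [h2]
  have h4 : ∀ w ∈ pt nd (2 * k), ∑ j ∈ range (2 * k),
      (∑ f : V → Fin 4, ((dgi G (pt nd j) w -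
        8 * dgi G ((pt nd j).filter fun v => sg (f (ρ v)) = 1) w : ℕ) : ℝ) +
      ∑ f : V → Fin 4, ((dgi G (pt nd j) w -
        8 * dgi G ((pt nd j).filter fun v => sg (f (ρ v)) = -1) w : ℕ) : ℝ)) ≤
      16 * k * (4 : ℝ) ^ Fintype.card V := by
    intro w _
    have h5 : ∀ j ∈ range (2 * k), _ ≤ 8 * (4 : ℝ) ^ Fintype.card V := fun j _ => by
      have h6 := hpos w j 1 (Or.inl rfl)
      have h7 := hpos w j (-1) (Or.inr rfl)
      have h8 := add_le_add h6 h7
      refine h8.trans (le_of_eq ?_)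
      ring
    refine (Finset.sum_le_card_nsmul _ _ _ h5).trans (le_of_eq ?_)
    rw [card_range, nsmul_eq_mul]
    push_cast
    ring
  refine (Finset.sum_le_card_nsmul _ _ _ h4).trans (le_of_eq ?_)
  rw [nsmul_eq_mul]
  ring

end Pool.Agent.H65.SPL
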