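import Mathlib
import Pool.Agent.H65.SPL.M2

/-!
SpQ2: the second moment of a sum of products of two signs. Use the STATEMENTS of `sg_sq`, `sg_add`, `orth` (`M2.lean`).

Proof. Expand the square and exchange the sums: `∑_f (..)² = ∑_{x, y ∈ W} S x y`, `S x y := ∑_f sg (f (ρ x.1)) * sg (f (ρ x.2)) * (sg (f (ρ y.1)) * sg (f (ρ y.2)))`. If `ρ x.1` is different from `ρ y.1` and `ρ y.2` then `S x y = 0` by `orth` with `u := ρ x.1` (also `ρ x.1 ≠ ρ x.2`); the same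
with `u := ρ x.2` if `ρ x.2` is different from `ρ y.1` and `ρ y.2`. Otherwise, as `ρ x.1 ≠ ρ x.2`, either `ρ y.1 = ρ x.1` and `ρ y.2 = ρ x.2`, or `ρ y.1 = ρ x.2` and `ρ y.2 = ρ x.1`. In all cases `S x y ≤ 4 ^ card V` (every term is at most `1`).
For given `x` there are at most `2 * 2 + 2 * 2 = 8` such `y` (they lie in `A ×ˢ B ∪ B ×ˢ A`, `A := {v : ρ v = ρ x.1}`, `B := {v : ρ v = ρ x.2}`). Sum over `x ∈ W`.
-/

set_option autoImplicit false

namespace Pool.Agent.H65.SPL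

open Finset Classical
open Pool.Agent.H71.DN Pool.Agent.H71.DX Pool.Agent.H71.DR Pool.Agent.H71.HL Pool.Agent.H71.DC
open Pool.Agent.H71.TD

private theorem q2_sg_le (g : Fin 4) : |sg g| ≤ 1 := by
  unfold sg
  split_ifs <;> simp

private theorem q2_S_le {V : Type} [Fintype V] (a b c d : V) :
    ∑ f : V → Fin 4, sg (f a) * sg (f b) * (sg (f c) * sg (f d)) ≤
      (4 : ℝ) ^ Fintype.card V := by
  have h : ∀ f : V → Fin 4, sg (f a) * sg (f b) * (sg (f c) * sg (f d)) ≤ 1 := by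
    intro f
    refine le_trans (le_abs_self _) ?_
    rw [abs_mul, abs_mul, abs_mul]
    have h1 := q2_sg_le (f a)
    have h2 := q2_sg_le (f b)
    have h3 := q2_sg_le (f c)
    have h4 := q2_sg_le (f d)
    have h5 : |sg (f a)| * |sg (f b)| ≤ 1 := mul_le_one₀ h1 (abs_nonneg _) h2
    have h6 : |sg (f c)| * |sg (f d)| ≤ 1 := mul_le_one₀ h3 (abs_nonneg _) h4
    exact mul_le_one₀ h5 (mul_nonneg (abs_nonneg _) (abs_nonneg _)) h6
  calc ∑ f : V → Fin 4, sg (f a) * sg (f b) * (sg (f c) * sg (f d))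
      ≤ ∑ _f : V → Fin 4, (1 : ℝ) := Finset.sum_le_sum fun f _ => h f
    _ = (4 : ℝ) ^ Fintype.card V := by
      rw [Finset.sum_const, nsmul_eq_mul, mul_one, Finset.card_univ, Fintype.card_fun,
        Fintype.card_fin]
      push_cast
      rfl

private theorem q2_S_zero {V : Type} [Fintype V] (a b c d : V) (h1 : a ≠ b) (h2 : a ≠ c)
    (h3 : a ≠ d) : ∑ f : V → Fin 4, sg (f a) * sg (f b) * (sg (f c) * sg (f d)) = 0 := by
  refine orth a (fun f => sg (f a) * sg (f b) * (sg (f c) * sg (f d))) ?_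
  intro f
  show sg (Function.update f a (f a + 2) a) * sg (Function.update f a (f a + 2) b) *
    (sg (Function.update f a (f a + 2) c) * sg (Function.update f a (f a + 2) d)) = _
  rw [Function.update_self, Function.update_of_ne h1.symm, Function.update_of_ne h2.symm,
    Function.update_of_ne h3.symm, sg_add]
  ring

private theorem q2_S_zero' {V : Type} [Fintype V] (a b c d : V) (h1 : a ≠ b) (h2 : b ≠ c)
    (h3 : b ≠ d) : ∑ f : V → Fin 4, sg (f a) * sg (f b) * (sg (f c) * sg (f d)) = 0 := by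
  rw [← q2_S_zero b a c d h1.symm h2 h3]
  refine Finset.sum_congr rfl fun f _ => ?_
  ring

private theorem q2_cnt {V : Type} [Fintype V] (ρ : V → V)
    (hρ : ∀ u, (univ.filter fun v => ρ v = u).card ≤ 2) (W : Finset (V × V)) (x : V × V) :
    (W.filter fun y => (ρ y.1 = ρ x.1 ∧ ρ y.2 = ρ x.2) ∨ (ρ y.1 = ρ x.2 ∧ ρ y.2 = ρ x.1)).card
      ≤ 8 := by
  have hsub : (W.filter fun y => (ρ y.1 = ρ x.1 ∧ ρ y.2 = ρ x.2) ∨
      (ρ y.1 = ρ x.2 ∧ ρ y.2 = ρ x.1)) ⊆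
      ((univ.filter fun v => ρ v = ρ x.1) ×ˢ (univ.filter fun v => ρ v = ρ x.2)) ∪
      ((univ.filter fun v => ρ v = ρ x.2) ×ˢ (univ.filter fun v => ρ v = ρ x.1)) := by
    intro y hy
    rw [Finset.mem_filter] at hy
    rw [Finset.mem_union, Finset.mem_product, Finset.mem_product, Finset.mem_filter,
      Finset.mem_filter, Finset.mem_filter, Finset.mem_filter]
    rcases hy.2 with h | h
    · exact Or.inl ⟨⟨Finset.mem_univ _, h.1⟩, ⟨Finset.mem_univ _, h.2⟩⟩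
    · exact Or.inr ⟨⟨Finset.mem_univ _, h.1⟩, ⟨Finset.mem_univ _, h.2⟩⟩
  refine le_trans (Finset.card_le_card hsub) ?_
  refine le_trans (Finset.card_union_le _ _) ?_
  rw [Finset.card_product, Finset.card_product]
  have h1 := hρ (ρ x.1)
  have h2 := hρ (ρ x.2)
  nlinarith [Nat.mul_le_mul h1 h2, Nat.mul_le_mul h2 h1]

theorem spQ2 {V : Type} [Fintype V] (ρ : V → V)
    (hρ : ∀ u, (univ.filter fun v => ρ v = u).card ≤ 2) (W : Finset (V × V))
    (hW : ∀ x ∈ W, ρ x.1 ≠ ρ x.2) :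
    ∑ f : V → Fin 4, (∑ x ∈ W, sg (f (ρ x.1)) * sg (f (ρ x.2))) ^ 2 ≤
      (4 : ℝ) ^ Fintype.card V * (8 * (W.card : ℝ)) := by
  have e0 : ∑ f : V → Fin 4, (∑ x ∈ W, sg (f (ρ x.1)) * sg (f (ρ x.2))) ^ 2 =
      ∑ x ∈ W, ∑ y ∈ W, ∑ f : V → Fin 4,
        sg (f (ρ x.1)) * sg (f (ρ x.2)) * (sg (f (ρ y.1)) * sg (f (ρ y.2))) := by
    rw [Finset.sum_comm' (s := W) (t := fun _ => W) (t' := W) (s' := fun _ => W) (by simp)]
    have e1 : ∀ f : V → Fin 4, (∑ x ∈ W, sg (f (ρ x.1)) * sg (f (ρ x.2))) ^ 2 =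
        ∑ y ∈ W, ∑ x ∈ W,
          sg (f (ρ x.1)) * sg (f (ρ x.2)) * (sg (f (ρ y.1)) * sg (f (ρ y.2))) := by
      intro f
      rw [pow_two, Finset.sum_mul_sum, Finset.sum_comm]
    rw [Finset.sum_congr rfl fun f _ => e1 f, Finset.sum_comm]
    refine Finset.sum_congr rfl fun y _ => ?_
    rw [Finset.sum_comm]
  rw [e0]
  have hp : (0 : ℝ) ≤ (4 : ℝ) ^ Fintype.card V := by positivity
  have hx : ∀ x ∈ W, ∑ y ∈ W, ∑ f : V → Fin 4,
        sg (f (ρ x.1)) * sg (f (ρ x.2)) * (sg (f (ρ y.1)) * sg (f (ρ y.2))) ≤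
      (4 : ℝ) ^ Fintype.card V * 8 := by
    intro x hxW
    have hne := hW x hxW
    have hterm : ∀ y ∈ W, ∑ f : V → Fin 4,
        sg (f (ρ x.1)) * sg (f (ρ x.2)) * (sg (f (ρ y.1)) * sg (f (ρ y.2))) ≤
        if (ρ y.1 = ρ x.1 ∧ ρ y.2 = ρ x.2) ∨ (ρ y.1 = ρ x.2 ∧ ρ y.2 = ρ x.1) then
          (4 : ℝ) ^ Fintype.card V else 0 := by
      intro y hyW
      have hney := hW y hyW
      split_ifs with hc
      · exact q2_S_le _ _ _ _
      · apply le_of_eq
        by_cases h1 : ρ x.1 = ρ y.1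
        · have h2 : ρ x.2 ≠ ρ y.1 := fun h => hne (h1.trans h.symm)
          have h3 : ρ x.2 ≠ ρ y.2 := fun h => hc (Or.inl ⟨h1.symm, h.symm⟩)
          exact q2_S_zero' _ _ _ _ hne h2 h3
        · by_cases h4 : ρ x.1 = ρ y.2
          · have h2 : ρ x.2 ≠ ρ y.2 := fun h => hne (h4.trans h.symm)
            have h3 : ρ x.2 ≠ ρ y.1 := fun h => hc (Or.inr ⟨h.symm, h4.symm⟩)
            exact q2_S_zero' _ _ _ _ hne h3 h2
          · exact q2_S_zero _ _ _ _ hne h1 h4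
    refine le_trans (Finset.sum_le_sum hterm) ?_
    rw [← Finset.sum_filter, Finset.sum_const, nsmul_eq_mul, mul_comm]
    apply mul_le_mul_of_nonneg_left _ hp
    exact_mod_cast q2_cnt ρ hρ W x
  refine le_trans (Finset.sum_le_sum hx) ?_
  rw [Finset.sum_const, nsmul_eq_mul]
  apply le_of_eq
  ring

end Pool.Agent.H65.SPL
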