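import Mathlib
import Pool.Agent.H65.SPL.M2
import Pool.Agent.H65.SPL.Q2

/-!
SpG2: Chebyshev for the number of the edges between two halves. Use the STATEMENTS of `sg_sq`, `spM2` (`M2.lean`) and `spQ2` (`Q2.lean`).

Proof. Let `A := (P ×ˢ Q).filter fun x => F.Adj x.1 x.2`, `M := #A = ee F P Q`, `s v := sg (f (ρ v))`, `Z f := ee F (P.filter (σ * s v = 1)) (Q.filter (σ * s v = 1))` `= ∑_{x ∈ A} [σ s x.1 = 1] [σ s x.2 = 1]`. As `[σ s v = 1] = (1 + σ s v) / 2` and `σ² = 1`: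
`4 Z f - M = ∑_{x ∈ A} (σ s x.1 + σ s x.2 + s x.1 * s x.2)`. Let `W := A.filter (ρ x.1 ≠ ρ x.2)`, `p := #(A \ W)`; for `x ∈ A \ W` the product `s x.1 * s x.2` is `1` (`sg_sq`). So `4 Z f - M = σ L1 f + σ L2 f + R f + p` with `L1 := ∑_{x ∈ A} s x.1 = ∑_{a ∈ P} w a * s a`, `w a := #{b ∈ Q : F.Adj a b}`,
`L2 := ∑_{x ∈ A} s x.2 = ∑_{b ∈ Q} w' b * s b`, `w' b := #{a ∈ P : F.Adj a b}`, `R := ∑_{x ∈ W} s x.1 * s x.2`. `0 ≤ w a ≤ dg F a ≤ d`, `∑_{a ∈ P} w a = M`, the same for `w'`. By `spM2` and `spQ2`: `∑_f L1² ≤ 4 ^ n * 2 d M`, `∑_f L2² ≤ 4 ^ n * 2 d M`, `∑_f R² ≤ 4 ^ n * 8 M`; so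
`∑_f (σ L1 + σ L2 + R)² ≤ 3 * ∑_f (L1² + L2² + R²) ≤ 12 * 4 ^ n * M * (d + 2)`.
If `16 Z f + y < M` then `σ L1 + σ L2 + R = 4 Z f - M - p < - 3 / 4 * M < 0`, so `(σ L1 + σ L2 + R)² ≥ 9 / 16 * M²`. So for the number `N` of these `f`: `N * 9 / 16 * M² ≤ 12 * 4 ^ n * M * (d + 2)`. If `N = 0` the claim holds (`0 ≤ d` or `P ∪ Q` empty: if `N > 0` then `M > y > 0`, so there is an edge and `d ≥ 1`;
if `N = 0` the left side is `0`; use the hypothesis `0 ≤ d`). If `N > 0` then `M > y > 0`; divide by `M`: `N * M ≤ 64 / 3 * 4 ^ n * (d + 2)`, and `N * y ≤ N * M`.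
-/

set_option autoImplicit false

namespace Pool.Agent.H65.SPL

open Finset Classical
open Pool.Agent.H71.DN Pool.Agent.H71.DX Pool.Agent.H71.DR Pool.Agent.H71.HL Pool.Agent.H71.DC
open Pool.Agent.H71.TD

private theorem g2_sg (g : Fin 4) : sg g = 1 ∨ sg g = -1 := by
  unfold sg
  split_ifs
  · exact Or.inl rfl
  · exact Or.inr rfl

private theorem g2_sum1 {V : Type} (F : SimpleGraph V) (P Q : Finset V) (g : V → ℝ) :
    ∑ x ∈ (P ×ˢ Q).filter (fun x => F.Adj x.1 x.2), g x.1 =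
      ∑ a ∈ P, ((Q.filter fun b => F.Adj a b).card : ℝ) * g a := by
  rw [Finset.sum_filter, Finset.sum_product]
  refine Finset.sum_congr rfl fun a _ => ?_
  rw [← Finset.sum_filter]
  exact (Finset.sum_const (g a)).trans (nsmul_eq_mul _ _)

private theorem g2_sum2 {V : Type} (F : SimpleGraph V) (P Q : Finset V) (g : V → ℝ) :
    ∑ x ∈ (P ×ˢ Q).filter (fun x => F.Adj x.1 x.2), g x.2 =
      ∑ b ∈ Q, ((P.filter fun a => F.Adj a b).card : ℝ) * g b := by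
  rw [Finset.sum_filter, Finset.sum_product_right]
  refine Finset.sum_congr rfl fun b _ => ?_
  rw [← Finset.sum_filter]
  exact (Finset.sum_const (g b)).trans (nsmul_eq_mul _ _)

private theorem g2_Z {V : Type} [Fintype V] (F : SimpleGraph V) (P Q : Finset V) (s : V → ℝ)
    (hs : ∀ v, s v = 1 ∨ s v = -1) (σ : ℝ) (hσ : σ = 1 ∨ σ = -1) :
    4 * (ee F (P.filter fun v => σ * s v = 1) (Q.filter fun v => σ * s v = 1) : ℝ) -
      (ee F P Q : ℝ) =
      ∑ x ∈ (P ×ˢ Q).filter (fun x => F.Adj x.1 x.2), (σ * s x.1 + σ * s x.2 + s x.1 * s x.2) := by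
  have h1 : ee F (P.filter fun v => σ * s v = 1) (Q.filter fun v => σ * s v = 1) =
      (((P ×ˢ Q).filter (fun x => F.Adj x.1 x.2)).filter
        (fun x => σ * s x.1 = 1 ∧ σ * s x.2 = 1)).card := by
    unfold ee
    congr 1
    ext x
    simp only [Finset.mem_filter, Finset.mem_product]
    tauto
  have h2 : (ee F P Q : ℝ) = ∑ x ∈ (P ×ˢ Q).filter (fun x => F.Adj x.1 x.2), (1 : ℝ) := by
    rw [Finset.sum_const, nsmul_eq_mul, mul_one]
    rfl
  rw [h1, h2, Finset.card_filter, Nat.cast_sum, Finset.mul_sum, ← Finset.sum_sub_distrib]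
  refine Finset.sum_congr rfl fun x _ => ?_
  rcases hσ with h | h <;> rcases hs x.1 with h3 | h3 <;> rcases hs x.2 with h4 | h4 <;>
    rw [h, h3, h4] <;> norm_num

private theorem g2_alg (a b c σ : ℝ) (hσ : σ = 1 ∨ σ = -1) :
    (σ * a + σ * b + c) ^ 2 ≤ 3 * (a ^ 2 + b ^ 2 + c ^ 2) := by
  rcases hσ with h | h <;> rw [h] <;>
    nlinarith [sq_nonneg (a - b), sq_nonneg (a - c), sq_nonneg (b - c), sq_nonneg (a + c),
      sq_nonneg (b + c)]

private theorem g2_mom {V : Type} [Fintype V] (F : SimpleGraph V) (ρ : V → V)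
    (hρ : ∀ u, (univ.filter fun v => ρ v = u).card ≤ 2) (P Q : Finset V) (d : ℝ)
    (hd : ∀ v ∈ P ∪ Q, (dg F v : ℝ) ≤ d) :
    (∑ f : V → Fin 4, (∑ x ∈ (P ×ˢ Q).filter (fun x => F.Adj x.1 x.2), sg (f (ρ x.1))) ^ 2 ≤
      (4 : ℝ) ^ Fintype.card V * (2 * d * (ee F P Q : ℝ))) ∧
    (∑ f : V → Fin 4, (∑ x ∈ (P ×ˢ Q).filter (fun x => F.Adj x.1 x.2), sg (f (ρ x.2))) ^ 2 ≤
      (4 : ℝ) ^ Fintype.card V * (2 * d * (ee F P Q : ℝ))) := by
  have hM : (ee F P Q : ℝ) = ∑ x ∈ (P ×ˢ Q).filter (fun x => F.Adj x.1 x.2), (1 : ℝ) := by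
    rw [Finset.sum_const, nsmul_eq_mul, mul_one]
    rfl
  have hT : ∀ T : Finset V, ∀ u, (T.filter fun v => ρ v = u).card ≤ 2 := fun T u =>
    (Finset.card_le_card (Finset.filter_subset_filter _ (Finset.subset_univ T))).trans (hρ u)
  constructor
  · have h1 := spM2 ρ P (hT P) (fun a => ((Q.filter fun b => F.Adj a b).card : ℝ)) d (by
      intro a ha
      refine ⟨Nat.cast_nonneg _, le_trans ?_ (hd a (Finset.mem_union_left _ ha))⟩
      have h2 : (Q.filter fun b => F.Adj a b).card ≤ dg F a :=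
        Finset.card_le_card (Finset.filter_subset_filter _ (Finset.subset_univ Q))
      exact_mod_cast h2)
    have h3 : ∑ a ∈ P, ((Q.filter fun b => F.Adj a b).card : ℝ) = (ee F P Q : ℝ) := by
      rw [hM, g2_sum1 F P Q (fun _ => 1)]
      refine Finset.sum_congr rfl fun a _ => ?_
      rw [mul_one]
    rw [h3] at h1
    refine le_trans (le_of_eq ?_) h1
    refine Finset.sum_congr rfl fun f _ => ?_
    rw [g2_sum1 F P Q (fun v => sg (f (ρ v)))]
  · have h1 := spM2 ρ Q (hT Q) (fun b => ((P.filter fun a => F.Adj a b).card : ℝ)) d (by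
      intro b hb
      refine ⟨Nat.cast_nonneg _, le_trans ?_ (hd b (Finset.mem_union_right _ hb))⟩
      have h2 : (P.filter fun a => F.Adj a b).card ≤ dg F b := by
        refine Finset.card_le_card fun a ha => ?_
        rw [Finset.mem_filter] at ha
        exact Finset.mem_filter.2 ⟨Finset.mem_univ _, ha.2.symm⟩
      exact_mod_cast h2)
    have h3 : ∑ b ∈ Q, ((P.filter fun a => F.Adj a b).card : ℝ) = (ee F P Q : ℝ) := by
      rw [hM, g2_sum2 F P Q (fun _ => 1)]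
      refine Finset.sum_congr rfl fun a _ => ?_
      rw [mul_one]
    rw [h3] at h1
    refine le_trans (le_of_eq ?_) h1
    refine Finset.sum_congr rfl fun f _ => ?_
    rw [g2_sum2 F P Q (fun v => sg (f (ρ v)))]

theorem spG2 {V : Type} [Fintype V] (F : SimpleGraph V) (ρ : V → V)
    (hρ : ∀ u, (univ.filter fun v => ρ v = u).card ≤ 2) (P Q : Finset V) (d : ℝ) (hd0 : 0 ≤ d)
    (hd : ∀ v ∈ P ∪ Q, (dg F v : ℝ) ≤ d) (σ : ℝ) (hσ : σ = 1 ∨ σ = -1) (y : ℝ) (hy : 0 < y) :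
    ((univ.filter fun f : V → Fin 4 =>
      16 * (ee F (P.filter fun v => σ * sg (f (ρ v)) = 1) (Q.filter fun v =>
        σ * sg (f (ρ v)) = 1) : ℝ) + y < (ee F P Q : ℝ)).card : ℝ) * y ≤
      24 * (d + 2) * (4 : ℝ) ^ Fintype.card V := by
  obtain ⟨m1, m2⟩ := g2_mom F ρ hρ P Q d hd
  set A : Finset (V × V) := (P ×ˢ Q).filter (fun x => F.Adj x.1 x.2) with hA
  set W : Finset (V × V) := A.filter (fun x => ρ x.1 ≠ ρ x.2) with hW
  set M : ℝ := (ee F P Q : ℝ) with hMd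
  have m3 := spQ2 ρ hρ W (fun x hx => (Finset.mem_filter.1 hx).2)
  have hWM : (W.card : ℝ) ≤ M := by
    have h : W.card ≤ ee F P Q := Finset.card_le_card (Finset.filter_subset _ _)
    rw [hMd]
    exact_mod_cast h
  have hM0 : 0 ≤ M := Nat.cast_nonneg _
  set B := (univ.filter fun f : V → Fin 4 =>
      16 * (ee F (P.filter fun v => σ * sg (f (ρ v)) = 1) (Q.filter fun v =>
        σ * sg (f (ρ v)) = 1) : ℝ) + y < M) with hB
  have hp : (0 : ℝ) < (4 : ℝ) ^ Fintype.card V := by positivity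
  -- the pointwise identity
  have hX : ∀ f : V → Fin 4,
      4 * (ee F (P.filter fun v => σ * sg (f (ρ v)) = 1) (Q.filter fun v =>
        σ * sg (f (ρ v)) = 1) : ℝ) - M =
      (σ * (∑ x ∈ A, sg (f (ρ x.1))) + σ * (∑ x ∈ A, sg (f (ρ x.2))) +
        ∑ x ∈ W, sg (f (ρ x.1)) * sg (f (ρ x.2))) +
        ((A.filter (fun x => ¬ (ρ x.1 ≠ ρ x.2))).card : ℝ) := by
    intro f
    rw [hMd, g2_Z F P Q (fun v => sg (f (ρ v))) (fun v => g2_sg _) σ hσ, ← hA,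
      Finset.sum_add_distrib, Finset.sum_add_distrib, ← Finset.mul_sum, ← Finset.mul_sum,
      ← Finset.sum_filter_add_sum_filter_not A (fun x => ρ x.1 ≠ ρ x.2)
        (fun x => sg (f (ρ x.1)) * sg (f (ρ x.2)))]
    have h1 : ∑ x ∈ A.filter (fun x => ¬ (ρ x.1 ≠ ρ x.2)), sg (f (ρ x.1)) * sg (f (ρ x.2)) =
        ((A.filter (fun x => ¬ (ρ x.1 ≠ ρ x.2))).card : ℝ) := by
      rw [Finset.card_eq_sum_ones, Nat.cast_sum]
      refine Finset.sum_congr rfl fun x hx => ?_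
      have h2 : ρ x.1 = ρ x.2 := not_not.1 (Finset.mem_filter.1 hx).2
      rw [h2, sg_sq, Nat.cast_one]
    rw [h1]
    ring
  have hsum : ∑ f : V → Fin 4, (σ * (∑ x ∈ A, sg (f (ρ x.1))) + σ * (∑ x ∈ A, sg (f (ρ x.2))) +
        ∑ x ∈ W, sg (f (ρ x.1)) * sg (f (ρ x.2))) ^ 2 ≤
      12 * (4 : ℝ) ^ Fintype.card V * M * (d + 2) := by
    refine (Finset.sum_le_sum fun f _ => g2_alg (∑ x ∈ A, sg (f (ρ x.1)))
      (∑ x ∈ A, sg (f (ρ x.2))) (∑ x ∈ W, sg (f (ρ x.1)) * sg (f (ρ x.2))) σ hσ).trans ?_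
    rw [← Finset.mul_sum, Finset.sum_add_distrib, Finset.sum_add_distrib]
    have h1 : (4 : ℝ) ^ Fintype.card V * (8 * (W.card : ℝ)) ≤
        (4 : ℝ) ^ Fintype.card V * (8 * M) := by
      apply mul_le_mul_of_nonneg_left _ hp.le
      linarith
    have h2 := add_le_add (add_le_add m1 m2) (m3.trans h1)
    have h3 := mul_le_mul_of_nonneg_left h2 (by norm_num : (0 : ℝ) ≤ 3)
    refine h3.trans (le_of_eq ?_)
    ring
  have hlow : (B.card : ℝ) * (9 / 16 * M ^ 2) ≤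
      ∑ f : V → Fin 4, (σ * (∑ x ∈ A, sg (f (ρ x.1))) + σ * (∑ x ∈ A, sg (f (ρ x.2))) +
        ∑ x ∈ W, sg (f (ρ x.1)) * sg (f (ρ x.2))) ^ 2 := by
    rw [← nsmul_eq_mul, ← Finset.sum_const]
    refine le_trans (Finset.sum_le_sum ?_) (Finset.sum_le_sum_of_subset_of_nonneg
      (Finset.subset_univ B) fun f _ _ => sq_nonneg _)
    intro f hf
    have h1 : 16 * (ee F (P.filter fun v => σ * sg (f (ρ v)) = 1) (Q.filter fun v =>
        σ * sg (f (ρ v)) = 1) : ℝ) + y < M := (Finset.mem_filter.1 hf).2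
    have h2 := hX f
    have h3 : (0 : ℝ) ≤ ((A.filter (fun x => ¬ (ρ x.1 ≠ ρ x.2))).card : ℝ) := Nat.cast_nonneg _
    have h4 : σ * (∑ x ∈ A, sg (f (ρ x.1))) + σ * (∑ x ∈ A, sg (f (ρ x.2))) +
        ∑ x ∈ W, sg (f (ρ x.1)) * sg (f (ρ x.2)) ≤ -(3 / 4 * M) := by linarith
    nlinarith [h4, hM0]
  have hmain := hlow.trans hsum
  by_cases hN : B.card = 0
  · rw [hN, Nat.cast_zero, zero_mul]
    positivity
  · obtain ⟨f, hf⟩ := Finset.card_pos.1 (Nat.pos_of_ne_zero hN)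
    have h1 : 16 * (ee F (P.filter fun v => σ * sg (f (ρ v)) = 1) (Q.filter fun v =>
        σ * sg (f (ρ v)) = 1) : ℝ) + y < M := (Finset.mem_filter.1 hf).2
    have h0 : (0 : ℝ) ≤ (ee F (P.filter fun v => σ * sg (f (ρ v)) = 1) (Q.filter fun v =>
        σ * sg (f (ρ v)) = 1) : ℝ) := Nat.cast_nonneg _
    have hyM : y < M := by linarith
    have hMp : 0 < M := hy.trans hyM
    have h2 : ((B.card : ℝ) * M) * M ≤ (64 / 3 * (4 : ℝ) ^ Fintype.card V * (d + 2)) * M := by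
      nlinarith [hmain]
    have h3 := le_of_mul_le_mul_right h2 hMp
    have h4 : (B.card : ℝ) * y ≤ (B.card : ℝ) * M :=
      mul_le_mul_of_nonneg_left hyM.le (Nat.cast_nonneg _)
    have h5 : 0 ≤ (4 : ℝ) ^ Fintype.card V * (d + 2) := by positivity
    linarith

end Pool.Agent.H65.SPL
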