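import Mathlib
import Pool.Agent.H65.SPL.Defs

/-!
SpPai: existence of the pairing.

Proof. For `i < k` let `C i := {v : nd v / 2 = i}` (that is `nd v = 2 i` or `nd v = 2 i + 1`). Choose `A i ⊆ C i` with `#(A i) = #(C i \ A i)`: for `ty i` all elements of `C i` have `nd v = 2 i` (`e1`), `#(C i)` is even, take any subset with half of
the elements (`Finset.exists_subset_card_eq`); for `¬ ty i` take `A i := pt nd (2 i)`, then `C i \ A i = pt nd (2 i + 1)` (`b1`). By `Finset.equivOfCardEq` there is a bijection `A i ≃ C i \ A i`; it gives an involution `τ i : V → V` that maps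
`A i` to `C i \ A i`, `C i \ A i` to `A i` and fixes every `v ∉ C i` (a general private lemma: for disjoint `A B : Finset V` with `#A = #B` there is `τ : V → V` with `τ (τ v) = v`, `v ∈ A → τ v ∈ B`, `v ∈ B → τ v ∈ A`, `v ∉ A → v ∉ B → τ v = v`).
Then `τ v := τ (nd v / 2) v` if `nd v < 2 k`, `τ v := v` otherwise, and `E := {v : nd v < 2 k → v ∈ A (nd v / 2)}`.
-/

set_option autoImplicit false

namespace Pool.Agent.H65.SPL

open Finset Classical
open Pool.Agent.H71.DN Pool.Agent.H71.DX Pool.Agent.H71.DR Pool.Agent.H71.HL Pool.Agent.H71.DC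
open Pool.Agent.H71.TD

/-- Two disjoint sets with the same number of elements are exchanged by an involution. -/
private theorem SpPai_inv {V : Type} (A B : Finset V) (hd : ∀ v, v ∈ A → v ∉ B)
    (hc : A.card = B.card) :
    ∃ τ : V → V, (∀ v, τ (τ v) = v) ∧ (∀ v, v ∈ A → τ v ∈ B) ∧ (∀ v, v ∈ B → τ v ∈ A) ∧
      (∀ v, v ∉ A → v ∉ B → τ v = v) := by
  obtain ⟨e⟩ : Nonempty (A ≃ B) := ⟨Finset.equivOfCardEq hc⟩
  have hd' : ∀ v, v ∈ B → v ∉ A := fun v h1 h2 => hd v h2 h1
  obtain ⟨τ, hτ⟩ : ∃ τ : V → V, τ = fun v => if h : v ∈ A then ((e ⟨v, h⟩ : B) : V) else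
      if h : v ∈ B then ((e.symm ⟨v, h⟩ : A) : V) else v := ⟨_, rfl⟩
  have tA : ∀ v (h : v ∈ A), τ v = ((e ⟨v, h⟩ : B) : V) := by
    intro v h
    rw [hτ]
    exact dif_pos h
  have tB : ∀ v (h : v ∈ B), τ v = ((e.symm ⟨v, h⟩ : A) : V) := by
    intro v h
    rw [hτ]
    show (if h : v ∈ A then ((e ⟨v, h⟩ : B) : V) else
      if h : v ∈ B then ((e.symm ⟨v, h⟩ : A) : V) else v) = _
    rw [dif_neg (hd' v h), dif_pos h]
  have tN : ∀ v, v ∉ A → v ∉ B → τ v = v := by
    intro v h1 h2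
    rw [hτ]
    show (if h : v ∈ A then ((e ⟨v, h⟩ : B) : V) else
      if h : v ∈ B then ((e.symm ⟨v, h⟩ : A) : V) else v) = _
    rw [dif_neg h1, dif_neg h2]
  refine ⟨τ, ?_, ?_, ?_, tN⟩
  · intro v
    by_cases h1 : v ∈ A
    · rw [tA v h1, tB _ (e ⟨v, h1⟩).2]
      simp
    · by_cases h2 : v ∈ B
      · rw [tB v h2, tA _ (e.symm ⟨v, h2⟩).2]
        simp
      · rw [tN v h1 h2, tN v h1 h2]
  · intro v h
    rw [tA v h]
    exact (e ⟨v, h⟩).2
  · intro v h
    rw [tB v h]
    exact (e.symm ⟨v, h⟩).2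

theorem spPai {V : Type} [Fintype V] (k : ℕ) (ty : ℕ → Prop) (nd : V → ℕ)
    (e1 : ∀ i < k, ty i → pt nd (2 * i + 1) = ∅ ∧ Even (pt nd (2 * i)).card)
    (b1 : ∀ i < k, ¬ ty i → (pt nd (2 * i)).card = (pt nd (2 * i + 1)).card) :
    ∃ (τ : V → V) (E : Finset V), Pai k ty nd τ E := by
  have hpt : ∀ i v, v ∈ pt nd i ↔ nd v = i := by
    intro i v
    simp [pt]
  have hA : ∀ i, ∃ A : Finset V, i < k →
      ((∀ v ∈ A, nd v / 2 = i) ∧
        A.card = ((univ.filter fun v => nd v / 2 = i) \ A).card ∧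
        (¬ ty i → ∀ v, v ∈ A ↔ nd v = 2 * i)) := by
    intro i
    by_cases hi : i < k
    swap
    · exact ⟨∅, fun h => absurd h hi⟩
    by_cases ht : ty i
    · obtain ⟨h1, h2⟩ := e1 i hi ht
      have h3 : (univ.filter fun v => nd v / 2 = i) = pt nd (2 * i) := by
        ext v
        rw [mem_filter, hpt]
        constructor
        · rintro ⟨_, h⟩
          by_contra h4
          have h5 : v ∈ pt nd (2 * i + 1) := by
            rw [hpt]
            omega
          rw [h1] at h5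
          exact notMem_empty v h5
        · intro h
          exact ⟨mem_univ _, by omega⟩
      obtain ⟨r, hr⟩ := h2
      obtain ⟨A, hAs, hAc⟩ := Finset.exists_subset_card_eq (s := pt nd (2 * i)) (n := r) (by omega)
      refine ⟨A, fun _ => ⟨?_, ?_, fun h => absurd ht h⟩⟩
      · intro v hv
        have := (hpt _ _).1 (hAs hv)
        omega
      · rw [h3, card_sdiff_of_subset hAs]
        omega
    · refine ⟨pt nd (2 * i), fun _ => ⟨?_, ?_, fun _ v => hpt _ v⟩⟩
      · intro v hv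
        have := (hpt _ _).1 hv
        omega
      · rw [b1 i hi ht]
        congr 1
        ext v
        rw [mem_sdiff, mem_filter, hpt, hpt]
        constructor
        · intro h
          exact ⟨⟨mem_univ _, by omega⟩, by omega⟩
        · rintro ⟨⟨_, h⟩, h'⟩
          omega
  choose A hA' using hA
  have hT : ∀ i, ∃ t : V → V, i < k →
      ((∀ v, t (t v) = v) ∧ (∀ v, v ∈ A i → t v ∈ (univ.filter fun v => nd v / 2 = i) \ A i) ∧
        (∀ v, v ∈ (univ.filter fun v => nd v / 2 = i) \ A i → t v ∈ A i)) := by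
    intro i
    by_cases hi : i < k
    swap
    · exact ⟨id, fun h => absurd h hi⟩
    obtain ⟨t, t1, t2, t3, _⟩ := SpPai_inv (A i) ((univ.filter fun v => nd v / 2 = i) \ A i)
      (fun v h h' => (mem_sdiff.1 h').2 h) (hA' i hi).2.1
    exact ⟨t, fun _ => ⟨t1, t2, t3⟩⟩
  choose t ht using hT
  have hlt : ∀ v, nd v < 2 * k → nd v / 2 < k := fun v h => by omega
  have htn : ∀ v, nd v < 2 * k → nd (t (nd v / 2) v) / 2 = nd v / 2 := by
    intro v hv
    obtain ⟨_, t2, t3⟩ := ht _ (hlt v hv)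
    by_cases h : v ∈ A (nd v / 2)
    · have := t2 v h
      rw [mem_sdiff, mem_filter] at this
      exact this.1.2
    · have := t3 v (by
        rw [mem_sdiff, mem_filter]
        exact ⟨⟨mem_univ _, rfl⟩, h⟩)
      exact (hA' _ (hlt v hv)).1 _ this
  have htm : ∀ v, nd v < 2 * k → (v ∈ A (nd v / 2) ↔ t (nd v / 2) v ∉ A (nd v / 2)) := by
    intro v hv
    obtain ⟨_, t2, t3⟩ := ht _ (hlt v hv)
    constructor
    · intro h
      have := t2 v h
      rw [mem_sdiff] at this
      exact this.2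
    · intro h
      by_contra h'
      exact h (t3 v (by
        rw [mem_sdiff, mem_filter]
        exact ⟨⟨mem_univ _, rfl⟩, h'⟩))
  obtain ⟨τ, hτ⟩ : ∃ τ : V → V, τ = fun v => if nd v < 2 * k then t (nd v / 2) v else v :=
    ⟨_, rfl⟩
  have τ1 : ∀ v, nd v < 2 * k → τ v = t (nd v / 2) v := by
    intro v hv
    rw [hτ]
    exact if_pos hv
  have τ2 : ∀ v, ¬ nd v < 2 * k → τ v = v := by
    intro v hv
    rw [hτ]
    exact if_neg hv
  have τn : ∀ v, nd (τ v) / 2 = nd v / 2 := by
    intro v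
    by_cases hv : nd v < 2 * k
    · rw [τ1 v hv]
      exact htn v hv
    · rw [τ2 v hv]
  have τl : ∀ v, nd v < 2 * k → nd (τ v) < 2 * k := by
    intro v hv
    have := τn v
    omega
  obtain ⟨E, hE⟩ : ∃ E : Finset V, E = univ.filter fun v => nd v < 2 * k → v ∈ A (nd v / 2) :=
    ⟨_, rfl⟩
  have hEm : ∀ v, v ∈ E ↔ (nd v < 2 * k → v ∈ A (nd v / 2)) := by
    intro v
    rw [hE, mem_filter]
    exact ⟨fun h => h.2, fun h => ⟨mem_univ _, h⟩⟩
  refine ⟨τ, E, ?_⟩
  constructor
  · intro v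
    by_cases hv : nd v < 2 * k
    · rw [τ1 _ (τl v hv), τn v, τ1 v hv]
      exact (ht _ (hlt v hv)).1 v
    · rw [τ2 v hv, τ2 v hv]
  · exact τn
  · intro v hv
    have hv' := τl v hv
    rw [hEm, hEm, τn v, τ1 v hv]
    have h1 := htm v hv
    rw [τ1 v hv] at hv'
    constructor
    · intro h h'
      exact h1.1 (h hv) (h' hv')
    · intro h _
      apply h1.2
      intro h'
      exact h (fun _ => h')
  · intro v hv
    refine ⟨τ2 v hv, ?_⟩
    rw [hEm]
    exact fun h => absurd h hv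
  · intro i hi hty v hv
    rw [hEm]
    intro _
    have h1 : nd v / 2 = i := by omega
    rw [h1]
    exact ((hA' i hi).2.2 hty v).2 hv
  · intro i hi hty v hv
    rw [hEm]
    intro h
    have h1 : nd v / 2 = i := by omega
    have h2 := h (by omega)
    rw [h1] at h2
    have := ((hA' i hi).2.2 hty v).1 h2
    omega

end Pool.Agent.H65.SPL
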