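import Mathlib
import Pool.Agent.H65.SPL.Defs

/-!
SpQt: the elementary properties of the quarters `qq k ty nd τ E f`, and of the representatives.

Proof. `qv_card1`, `qv_card2`: by cases `t`, `e`, and `decide` (or `fin_cases`) over the four values `g`.
`rp_inj`: on `E` the map `rp` is the identity, outside `E` it is `τ`, which is injective by `inv`. `rp_two`: `rp τ E v = u` implies `v = u` or `v = τ u`.
`spQt`: `qv t e g < 4`, `qv t e g < 2 ↔ g < 2` (by cases). Let `nd v < 2 k`. Then `rp τ E (τ v) = rp τ E v` (`mt`, `inv`), and `τ v ∈ E ↔ v ∉ E`, `nd (τ v) / 2 = nd v / 2` (so `nd (τ v) < 2 k`). So `qq (τ v) = qv t (¬ e) g` if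
`qq v = qv t e g`: the first summand is the same and the second one is flipped, `{qq v, qq (τ v)} = {0, 1}` or `{2, 3}`. So `τ` is a bijection of `qs nd qq i 0` and `qs nd qq i 1`, and of `qs nd qq i 2` and `qs nd qq i 3` (`Finset.card_bij'` or `card_nbij'`
with `τ` in both directions). `bs`: `b0`, `b1` of `Pai`.
-/

set_option autoImplicit false

namespace Pool.Agent.H65.SPL

open Finset Classical
open Pool.Agent.H71.DN Pool.Agent.H71.DX Pool.Agent.H71.DR Pool.Agent.H71.HL Pool.Agent.H71.DC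
open Pool.Agent.H71.TD

private theorem Qt_tt (t e : Prop) (ht : t) (he : e) (g : Fin 4) :
    qv t e g = 2 * ((g : ℕ) / 2) + (g : ℕ) % 2 := by
  unfold qv
  rw [if_pos ht, if_pos he]

private theorem Qt_tf (t e : Prop) (ht : t) (he : ¬ e) (g : Fin 4) :
    qv t e g = 2 * ((g : ℕ) / 2) + (1 - (g : ℕ) % 2) := by
  unfold qv
  rw [if_pos ht, if_neg he]

private theorem Qt_ft (t e : Prop) (ht : ¬ t) (he : e) (g : Fin 4) :
    qv t e g = 2 * ((g : ℕ) / 2) + 0 := by
  unfold qv
  rw [if_neg ht, if_pos he]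

private theorem Qt_ff (t e : Prop) (ht : ¬ t) (he : ¬ e) (g : Fin 4) :
    qv t e g = 2 * ((g : ℕ) / 2) + 1 := by
  unfold qv
  rw [if_neg ht, if_neg he]

theorem qv_card1 (t e : Prop) (ht : t) (j : ℕ) (hj : j < 4) :
    (univ.filter fun g : Fin 4 => qv t e g = j).card = 1 := by
  by_cases he : e
  · simp only [Qt_tt t e ht he]
    interval_cases j <;> decide
  · simp only [Qt_tf t e ht he]
    interval_cases j <;> decide

theorem qv_card2 (t e : Prop) (ht : ¬ t) (j : ℕ)
    (h : (e ∧ (j = 0 ∨ j = 2)) ∨ (¬ e ∧ (j = 1 ∨ j = 3))) :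
    (univ.filter fun g : Fin 4 => qv t e g = j).card = 2 := by
  rcases h with ⟨he, h⟩ | ⟨he, h⟩
  · simp only [Qt_ft t e ht he]
    rcases h with rfl | rfl <;> decide
  · simp only [Qt_ff t e ht he]
    rcases h with rfl | rfl <;> decide

theorem rp_inj {V : Type} {k : ℕ} {ty : ℕ → Prop} {nd : V → ℕ} {τ : V → V} {E : Finset V}
    (h : Pai k ty nd τ E) :
    (∀ a ∈ E, ∀ b ∈ E, rp τ E a = rp τ E b → a = b) ∧
    (∀ a, a ∉ E → ∀ b, b ∉ E → rp τ E a = rp τ E b → a = b) := by
  refine ⟨?_, ?_⟩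
  · intro a ha b hb hab
    unfold rp at hab
    rwa [if_pos ha, if_pos hb] at hab
  · intro a ha b hb hab
    unfold rp at hab
    rw [if_neg ha, if_neg hb] at hab
    rw [← h.inv a, hab, h.inv b]

theorem rp_two {V : Type} [Fintype V] {k : ℕ} {ty : ℕ → Prop} {nd : V → ℕ} {τ : V → V}
    {E : Finset V} (h : Pai k ty nd τ E) (u : V) :
    (univ.filter fun v => rp τ E v = u).card ≤ 2 := by
  have hsub : (univ.filter fun v => rp τ E v = u) ⊆ {u, τ u} := by
    intro v hv
    have hv2 := (mem_filter.mp hv).2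
    unfold rp at hv2
    rw [mem_insert, mem_singleton]
    by_cases he : v ∈ E
    · rw [if_pos he] at hv2
      exact Or.inl hv2
    · rw [if_neg he] at hv2
      right
      rw [← hv2, h.inv]
  exact le_trans (card_le_card hsub) card_le_two

private theorem Qt_rp {V : Type} {k : ℕ} {ty : ℕ → Prop} {nd : V → ℕ} {τ : V → V}
    {E : Finset V} (h : Pai k ty nd τ E) (v : V) (hv : nd v < 2 * k) :
    rp τ E (τ v) = rp τ E v := by
  unfold rp
  have h1 := h.mt v hv
  by_cases he : v ∈ E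
  · have h2 := h1.mp he
    rw [if_pos he, if_neg h2, h.inv]
  · have h2 : τ v ∈ E := by
      by_contra h3
      exact he (h1.mpr h3)
    rw [if_neg he, if_pos h2]

private theorem Qt_lt4 (t e : Prop) (g : Fin 4) : qv t e g < 4 := by
  have hg := g.isLt
  by_cases ht : t
  · by_cases he : e
    · rw [Qt_tt t e ht he]
      omega
    · rw [Qt_tf t e ht he]
      omega
  · by_cases he : e
    · rw [Qt_ft t e ht he]
      omega
    · rw [Qt_ff t e ht he]
      omega

private theorem Qt_lt2 (t e : Prop) (g : Fin 4) : qv t e g < 2 ↔ (g : ℕ) < 2 := by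
  have hg := g.isLt
  by_cases ht : t
  · by_cases he : e
    · rw [Qt_tt t e ht he]
      omega
    · rw [Qt_tf t e ht he]
      omega
  · by_cases he : e
    · rw [Qt_ft t e ht he]
      omega
    · rw [Qt_ff t e ht he]
      omega

private theorem Qt_flip (t e e' : Prop) (h : e ↔ ¬ e') (g : Fin 4) :
    (qv t e g = 0 → qv t e' g = 1) ∧ (qv t e g = 1 → qv t e' g = 0) ∧
    (qv t e g = 2 → qv t e' g = 3) ∧ (qv t e g = 3 → qv t e' g = 2) := by
  have hg := g.isLt
  by_cases ht : t
  · by_cases he : e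
    · rw [Qt_tt t e ht he, Qt_tf t e' ht (h.mp he)]
      omega
    · have he' : e' := by
        by_contra h3
        exact he (h.mpr h3)
      rw [Qt_tf t e ht he, Qt_tt t e' ht he']
      omega
  · by_cases he : e
    · rw [Qt_ft t e ht he, Qt_ff t e' ht (h.mp he)]
      omega
    · have he' : e' := by
        by_contra h3
        exact he (h.mpr h3)
      rw [Qt_ff t e ht he, Qt_ft t e' ht he']
      omega

private theorem Qt_tau {V : Type} [Fintype V] {k : ℕ} {ty : ℕ → Prop} {nd : V → ℕ} {τ : V → V}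
    {E : Finset V} (h : Pai k ty nd τ E) (f : V → Fin 4) (v : V) (hv : nd v < 2 * k) :
    (qq k ty nd τ E f v = 0 → qq k ty nd τ E f (τ v) = 1) ∧
    (qq k ty nd τ E f v = 1 → qq k ty nd τ E f (τ v) = 0) ∧
    (qq k ty nd τ E f v = 2 → qq k ty nd τ E f (τ v) = 3) ∧
    (qq k ty nd τ E f v = 3 → qq k ty nd τ E f (τ v) = 2) := by
  have h1 := h.pr v
  have hv2 : nd (τ v) < 2 * k := by omega
  unfold qq
  rw [if_pos hv, if_pos hv2, h1, Qt_rp h v hv]
  exact Qt_flip _ _ _ (h.mt v hv) _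

private theorem Qt_card {V : Type} [Fintype V] {k : ℕ} {ty : ℕ → Prop} {nd : V → ℕ} {τ : V → V}
    {E : Finset V} (h : Pai k ty nd τ E) (q : V → ℕ) (i a b : ℕ) (_hi : i < k)
    (h1 : ∀ v, nd v < 2 * k → q v = a → q (τ v) = b)
    (h2 : ∀ v, nd v < 2 * k → q v = b → q (τ v) = a) :
    (qs nd q i a).card = (qs nd q i b).card := by
  apply card_nbij' τ τ
  · intro v hv
    have hv := mem_coe.mp hv
    unfold qs at hv
    have hv2 := (mem_filter.mp hv).2
    apply mem_coe.mpr
    unfold qs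
    rw [mem_filter]
    refine ⟨mem_univ _, ?_, ?_⟩
    · rw [h.pr v]
      exact hv2.1
    · exact h1 v (by omega) hv2.2
  · intro v hv
    have hv := mem_coe.mp hv
    unfold qs at hv
    have hv2 := (mem_filter.mp hv).2
    apply mem_coe.mpr
    unfold qs
    rw [mem_filter]
    refine ⟨mem_univ _, ?_, ?_⟩
    · rw [h.pr v]
      exact hv2.1
    · exact h2 v (by omega) hv2.2
  · intro v _
    exact h.inv v
  · intro v _
    exact h.inv v

theorem spQt {V : Type} [Fintype V] {k : ℕ} {ty : ℕ → Prop} {nd : V → ℕ} {τ : V → V}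
    {E : Finset V} (h : Pai k ty nd τ E) (f : V → Fin 4) :
    (∀ v, qq k ty nd τ E f v < 4) ∧
    (∀ i < k, (qs nd (qq k ty nd τ E f) i 0).card = (qs nd (qq k ty nd τ E f) i 1).card ∧
      (qs nd (qq k ty nd τ E f) i 2).card = (qs nd (qq k ty nd τ E f) i 3).card) ∧
    (∀ i < k, ¬ ty i →
      (∀ v, nd v = 2 * i → qq k ty nd τ E f v = 0 ∨ qq k ty nd τ E f v = 2) ∧
      (∀ v, nd v = 2 * i + 1 → qq k ty nd τ E f v = 1 ∨ qq k ty nd τ E f v = 3)) ∧
    (∀ v, nd v < 2 * k → (qq k ty nd τ E f v < 2 ↔ sg (f (rp τ E v)) = 1)) ∧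
    (∀ v, nd v < 2 * k → (2 ≤ qq k ty nd τ E f v ↔ sg (f (rp τ E v)) = -1)) := by
  refine ⟨?_, ?_, ?_, ?_, ?_⟩
  · intro v
    unfold qq
    split_ifs with hv
    · exact Qt_lt4 _ _ _
    · norm_num
  · intro i hi
    refine ⟨?_, ?_⟩
    · exact Qt_card h _ i 0 1 hi (fun v hv hq => (Qt_tau h f v hv).1 hq)
        (fun v hv hq => (Qt_tau h f v hv).2.1 hq)
    · exact Qt_card h _ i 2 3 hi (fun v hv hq => (Qt_tau h f v hv).2.2.1 hq)
        (fun v hv hq => (Qt_tau h f v hv).2.2.2 hq)
  · intro i hi hty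
    refine ⟨?_, ?_⟩
    · intro v hv
      have hlt : nd v < 2 * k := by omega
      have hdiv : nd v / 2 = i := by omega
      have hE := h.b0 i hi hty v hv
      unfold qq
      rw [if_pos hlt, hdiv, Qt_ft _ _ hty hE]
      have := (f (rp τ E v)).isLt
      omega
    · intro v hv
      have hlt : nd v < 2 * k := by omega
      have hdiv : nd v / 2 = i := by omega
      have hE := h.b1 i hi hty v hv
      unfold qq
      rw [if_pos hlt, hdiv, Qt_ff _ _ hty hE]
      have := (f (rp τ E v)).isLt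
      omega
  · intro v hv
    unfold qq sg
    rw [if_pos hv, Qt_lt2]
    split_ifs with hg
    · exact ⟨fun _ => rfl, fun _ => hg⟩
    · refine ⟨fun hc => absurd hc hg, fun hc => ?_⟩
      norm_num at hc
  · intro v hv
    unfold qq sg
    rw [if_pos hv]
    have h2 := Qt_lt2 (ty (nd v / 2)) (v ∈ E) (f (rp τ E v))
    split_ifs with hg
    · refine ⟨fun hc => ?_, fun hc => ?_⟩
      · have := h2.mpr hg
        omega
      · norm_num at hc
    · refine ⟨fun _ => rfl, fun _ => ?_⟩
      by_contra hc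
      exact hg (h2.mp (by omega))

end Pool.Agent.H65.SPL
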