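import Mathlib
import Pool.Agent.H65.SPL.Defs
import Pool.Agent.H71.DX.Chx

/-!
SpT: the tail bound for one set `T`. `ρ` is injective on `E` and on the complement of `E`.

Proof. `T1 := T.filter (· ∈ E)`, `T2 := T.filter (· ∉ E)`. For `s = 1, 2` the map `ρ` is injective on `Ts`; let `Ds := Ts.image ρ` (at most `card V` elements) and `Is u := I v` for the element `v ∈ Ts` with `ρ v = u` (choice; `∅` if there is none). Then
`#{v ∈ Ts : f (ρ v) ∈ I v} = #{u ∈ Ds : f u ∈ Is u}` and `∑_{v ∈ Ts} #(I v) = ∑_{u ∈ Ds} #(Is u)` (`Finset.sum_image`, `Finset.card_bij`). A private lemma for one set on which `ρ` is injective: by `tail2x` (`DX/Chx.lean`, with `Q := 4`, `D := Ds`, `I := Is`,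
`x / 2`, `n := card V`) the number of `f` with `x / 2 * n < |#{v ∈ Ts : f (ρ v) ∈ I v} - (∑_{v ∈ Ts} #(I v)) / 4|` is at most `2 * 4 ^ n * exp (- ((x / 2) ^ 2 * n / 4))`. If the deviation for `T` is more than `x n` then
the one for `T1` or the one for `T2` is more than `x / 2 * n` (`T` is the disjoint union): add the two bounds.
-/

set_option autoImplicit false

namespace Pool.Agent.H65.SPL

open Finset Classical
open Pool.Agent.H71.DN Pool.Agent.H71.DX Pool.Agent.H71.DR Pool.Agent.H71.HL Pool.Agent.H71.DC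
open Pool.Agent.H71.TD

private theorem spT_one {V : Type} [Fintype V] (ρ : V → V) (T : Finset V)
    (hT : ∀ a ∈ T, ∀ b ∈ T, ρ a = ρ b → a = b) (I : V → Finset (Fin 4)) (x : ℝ) (hx0 : 0 ≤ x) (hx1 : x ≤ 1) :
    ((univ.filter fun f : V → Fin 4 => x / 2 * Fintype.card V <
      |((T.filter fun v => f (ρ v) ∈ I v).card : ℝ) - (∑ v ∈ T, ((I v).card : ℝ)) / 4|).card :
      ℝ) ≤ 2 * (4 : ℝ) ^ Fintype.card V * Real.exp (-(x ^ 2 * Fintype.card V / 16)) := by
  obtain ⟨J, hJ⟩ : ∃ J : V → Finset (Fin 4), ∀ v ∈ T, J (ρ v) = I v := by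
    refine ⟨fun u => if h : ∃ v ∈ T, ρ v = u then I (Classical.choose h) else ∅, ?_⟩
    intro v hv
    have h : ∃ w ∈ T, ρ w = ρ v := ⟨v, hv, rfl⟩
    beta_reduce
    rw [dif_pos h]
    have h1 := Classical.choose_spec h
    rw [hT _ h1.1 v hv h1.2]
  have hc : ∀ f : V → Fin 4, ((T.image ρ).filter fun u => f u ∈ J u).card =
      (T.filter fun v => f (ρ v) ∈ I v).card := by
    intro f
    rw [Finset.filter_image, Finset.card_image_of_injOn]
    · congr 1
      apply Finset.filter_congr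
      intro v hv
      rw [hJ v hv]
    · intro a ha b hb hab
      exact hT a (Finset.mem_filter.1 ha).1 b (Finset.mem_filter.1 hb).1 hab
  have hs : ∑ u ∈ T.image ρ, ((J u).card : ℝ) = ∑ v ∈ T, ((I v).card : ℝ) := by
    rw [Finset.sum_image hT]
    exact Finset.sum_congr rfl fun v hv => by rw [hJ v hv]
  have hn : ((T.image ρ).card : ℝ) ≤ (Fintype.card V : ℝ) := by
    exact_mod_cast Finset.card_le_univ _
  have h := tail2x 4 (by norm_num) (T.image ρ) J (x / 2) (Fintype.card V : ℝ) (by linarith) (by linarith) hn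
  simp only [hc, hs] at h
  push_cast at h
  have e : (x / 2) ^ 2 * (Fintype.card V : ℝ) / 4 = x ^ 2 * Fintype.card V / 16 := by ring
  rw [e] at h
  exact h

theorem spT {V : Type} [Fintype V] (ρ : V → V) (E : Finset V)
    (h1 : ∀ a ∈ E, ∀ b ∈ E, ρ a = ρ b → a = b)
    (h2 : ∀ a, a ∉ E → ∀ b, b ∉ E → ρ a = ρ b → a = b)
    (T : Finset V) (I : V → Finset (Fin 4)) (x : ℝ) (hx0 : 0 ≤ x) (hx1 : x ≤ 1) :
    ((univ.filter fun f : V → Fin 4 => x * Fintype.card V <
      |((T.filter fun v => f (ρ v) ∈ I v).card : ℝ) - (∑ v ∈ T, ((I v).card : ℝ)) / 4|).card :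
      ℝ) ≤ 4 * (4 : ℝ) ^ Fintype.card V * Real.exp (-(x ^ 2 * Fintype.card V / 16)) := by
  have t1 := spT_one ρ (T.filter fun v => v ∈ E)
    (fun a ha b hb => h1 a (Finset.mem_filter.1 ha).2 b (Finset.mem_filter.1 hb).2) I x hx0 hx1
  have t2 := spT_one ρ (T.filter fun v => ¬ v ∈ E)
    (fun a ha b hb => h2 a (Finset.mem_filter.1 ha).2 b (Finset.mem_filter.1 hb).2) I x hx0 hx1
  have hsplit : ∀ f : V → Fin 4, ((T.filter fun v => f (ρ v) ∈ I v).card : ℝ) =
      (((T.filter fun v => v ∈ E).filter fun v => f (ρ v) ∈ I v).card : ℝ) +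
      (((T.filter fun v => ¬ v ∈ E).filter fun v => f (ρ v) ∈ I v).card : ℝ) := by
    intro f
    rw [Finset.card_filter, Finset.card_filter, Finset.card_filter]
    push_cast
    exact (Finset.sum_filter_add_sum_filter_not T (fun v => v ∈ E) _).symm
  have hsum : ∑ v ∈ T, ((I v).card : ℝ) = ∑ v ∈ T.filter (fun v => v ∈ E), ((I v).card : ℝ) +
      ∑ v ∈ T.filter (fun v => ¬ v ∈ E), ((I v).card : ℝ) :=
    (Finset.sum_filter_add_sum_filter_not T (fun v => v ∈ E) _).symm
  have hsub : (univ.filter fun f : V → Fin 4 => x * Fintype.card V <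
      |((T.filter fun v => f (ρ v) ∈ I v).card : ℝ) - (∑ v ∈ T, ((I v).card : ℝ)) / 4|) ⊆
      (univ.filter fun f : V → Fin 4 => x / 2 * Fintype.card V <
        |(((T.filter fun v => v ∈ E).filter fun v => f (ρ v) ∈ I v).card : ℝ) -
          (∑ v ∈ T.filter (fun v => v ∈ E), ((I v).card : ℝ)) / 4|) ∪
      (univ.filter fun f : V → Fin 4 => x / 2 * Fintype.card V <
        |(((T.filter fun v => ¬ v ∈ E).filter fun v => f (ρ v) ∈ I v).card : ℝ) -
          (∑ v ∈ T.filter (fun v => ¬ v ∈ E), ((I v).card : ℝ)) / 4|) := by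
    intro f hf
    have h3 := (Finset.mem_filter.1 hf).2
    rw [Finset.mem_union, Finset.mem_filter, Finset.mem_filter]
    by_contra hcon
    rw [not_or] at hcon
    have h4 : ¬ _ := fun h => hcon.1 ⟨Finset.mem_univ _, h⟩
    have h5 : ¬ _ := fun h => hcon.2 ⟨Finset.mem_univ _, h⟩
    rw [not_lt] at h4 h5
    have h6 := abs_le.1 h4
    have h7 := abs_le.1 h5
    have h8 : |((T.filter fun v => f (ρ v) ∈ I v).card : ℝ) - (∑ v ∈ T, ((I v).card : ℝ)) / 4| ≤
        x * Fintype.card V := by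
      rw [hsplit f, hsum, abs_le]
      constructor <;> linarith [h6.1, h6.2, h7.1, h7.2]
    exact absurd h3 (not_lt.2 h8)
  have h9 : ((univ.filter fun f : V → Fin 4 => x * Fintype.card V <
      |((T.filter fun v => f (ρ v) ∈ I v).card : ℝ) - (∑ v ∈ T, ((I v).card : ℝ)) / 4|).card : ℝ) ≤
      ((univ.filter fun f : V → Fin 4 => x / 2 * Fintype.card V <
        |(((T.filter fun v => v ∈ E).filter fun v => f (ρ v) ∈ I v).card : ℝ) -
          (∑ v ∈ T.filter (fun v => v ∈ E), ((I v).card : ℝ)) / 4|).card : ℝ) +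
      ((univ.filter fun f : V → Fin 4 => x / 2 * Fintype.card V <
        |(((T.filter fun v => ¬ v ∈ E).filter fun v => f (ρ v) ∈ I v).card : ℝ) -
          (∑ v ∈ T.filter (fun v => ¬ v ∈ E), ((I v).card : ℝ)) / 4|).card : ℝ) := by
    exact_mod_cast (Finset.card_le_card hsub).trans (Finset.card_union_le _ _)
  refine h9.trans ((add_le_add t1 t2).trans (le_of_eq ?_))
  ring

end Pool.Agent.H65.SPL
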