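import Mathlib
import Pool.Agent.H65.SPL.Tl
import Pool.Agent.H71.DR.Fam

/-!
SpU: the tail bound for all sets `{a ∈ P : #{j : G.Adj (b j) a} ≤ i}` at once. Use the STATEMENT of `spT` (`Tl.lean`); compare `rndF` in `H71/DR/Fam.lean` (proved).

Proof. Replace `x` by `x' := min x 1 ≤ x` (the set of bad `f` becomes larger). For `i > K` the set is the same as for `i = K`, so (`FamT_min` in `DR/Fam.lean`) only `i ≤ K` has to be considered: the set of bad `f` is contained in the union over `(b, i) : (Fin K → V) × Fin (K + 1)` of the sets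
in `spT` for `T := P.filter ..`. So its cardinality is at most `n ^ K * (K + 1) * (4 * 4 ^ n * exp (- x'² n / 16))` (`Finset.card_biUnion_le`). With `a := x'² / 32` and `exp (- x'² n / 16) = exp (- a n) * exp (- a n)`: `Fam_num K a` (`DR/Fam.lean`) gives `n ^ K * (K + 1) * (2 * exp (- a n)) < 1` for `n ≥ n1`,
and `m * 2 * exp (- a n) ≤ 1` as soon as `a n ≥ 2 m` (`exp y ≥ y + 1`). Multiply. (`m = 0` is trivial.)
-/

set_option autoImplicit false

namespace Pool.Agent.H65.SPL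

open Finset Classical
open Pool.Agent.H71.DN Pool.Agent.H71.DX Pool.Agent.H71.DR Pool.Agent.H71.HL Pool.Agent.H71.DC
open Pool.Agent.H71.TD

theorem spU (K m : ℕ) (x : ℝ) (hx : 0 < x) :
    ∃ n0 : ℕ, ∀ (V : Type) [Fintype V] (G : SimpleGraph V) (ρ : V → V) (E : Finset V),
      (∀ a ∈ E, ∀ b ∈ E, ρ a = ρ b → a = b) →
      (∀ a, a ∉ E → ∀ b, b ∉ E → ρ a = ρ b → a = b) → n0 ≤ Fintype.card V →
      ∀ (P : Finset V) (I : V → Finset (Fin 4)),
      (m : ℝ) * ((univ.filter fun f : V → Fin 4 => ∃ (b : Fin K → V) (i : ℕ),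
        x * Fintype.card V <
        |(((P.filter fun a => (univ.filter fun j => G.Adj (b j) a).card ≤ i).filter
            fun v => f (ρ v) ∈ I v).card : ℝ) -
          (∑ v ∈ P.filter (fun a => (univ.filter fun j => G.Adj (b j) a).card ≤ i),
            ((I v).card : ℝ)) / 4|).card : ℝ) < (4 : ℝ) ^ Fintype.card V := by
  obtain ⟨x', hx'⟩ : ∃ x' : ℝ, x' = min x 1 := ⟨_, rfl⟩
  have hx'0 : 0 < x' := by
    rw [hx']
    exact lt_min hx one_pos
  have hx'1 : x' ≤ 1 := by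
    rw [hx']
    exact min_le_right _ _
  have hx'x : x' ≤ x := by
    rw [hx']
    exact min_le_left _ _
  obtain ⟨a, ha⟩ : ∃ a : ℝ, a = x' ^ 2 / 32 := ⟨_, rfl⟩
  have ha0 : 0 < a := by
    rw [ha]
    positivity
  obtain ⟨n1, hn1⟩ := Fam_num K a ha0
  refine ⟨n1 + ⌈2 * m / a⌉₊, fun V _ G ρ E h1 h2 hV P I => ?_⟩
  obtain ⟨n, hn⟩ : ∃ n : ℕ, n = Fintype.card V := ⟨_, rfl⟩
  rw [← hn] at hV
  obtain ⟨hn1', hnum⟩ := hn1 n (by omega)
  have ham : 2 * (m : ℝ) ≤ a * n := by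
    have h3 : 2 * (m : ℝ) / a ≤ ⌈2 * (m : ℝ) / a⌉₊ := Nat.le_ceil _
    have h4 : ((⌈2 * (m : ℝ) / a⌉₊ : ℕ) : ℝ) ≤ n := by
      have h5 : ⌈2 * (m : ℝ) / a⌉₊ ≤ n := by omega
      exact_mod_cast h5
    have h5 : 2 * (m : ℝ) / a ≤ n := h3.trans h4
    rw [div_le_iff₀ ha0] at h5
    linarith
  obtain ⟨T, hT⟩ : ∃ T : (Fin K → V) × Fin (K + 1) → Finset V, T = fun o =>
    P.filter fun v => (univ.filter fun j => G.Adj (o.1 j) v).card ≤ (o.2 : ℕ) := ⟨_, rfl⟩
  obtain ⟨B, hB⟩ : ∃ B : (Fin K → V) × Fin (K + 1) → Finset (V → Fin 4), B = fun o =>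
    univ.filter fun f : V → Fin 4 => x' * Fintype.card V <
      |(((T o).filter fun v => f (ρ v) ∈ I v).card : ℝ) - (∑ v ∈ T o, ((I v).card : ℝ)) / 4| :=
    ⟨_, rfl⟩
  have hBc : ∀ o, ((B o).card : ℝ) ≤
      4 * (4 : ℝ) ^ n * Real.exp (-(x' ^ 2 * n / 16)) := by
    intro o
    rw [hB, hn]
    exact spT ρ E h1 h2 (T o) I x' hx'0.le hx'1
  have hsub : (univ.filter fun f : V → Fin 4 => ∃ (b : Fin K → V) (i : ℕ),
        x * Fintype.card V <
        |(((P.filter fun a => (univ.filter fun j => G.Adj (b j) a).card ≤ i).filter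
            fun v => f (ρ v) ∈ I v).card : ℝ) -
          (∑ v ∈ P.filter (fun a => (univ.filter fun j => G.Adj (b j) a).card ≤ i),
            ((I v).card : ℝ)) / 4|) ⊆ univ.biUnion B := by
    intro f hf
    rw [mem_filter] at hf
    obtain ⟨b, i, hbi⟩ := hf.2
    rw [mem_biUnion]
    refine ⟨(b, ⟨min i K, by have := min_le_right i K; omega⟩), mem_univ _, ?_⟩
    have e1 : (P.filter fun v => (univ.filter fun j => G.Adj (b j) v).card ≤ i) =
        P.filter fun v => (univ.filter fun j => G.Adj (b j) v).card ≤ min i K := by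
      ext v
      rw [mem_filter, mem_filter, FamT_min G b i v]
    rw [hB, hT]
    rw [mem_filter]
    refine ⟨mem_univ f, ?_⟩
    rw [e1] at hbi
    exact lt_of_le_of_lt (mul_le_mul_of_nonneg_right hx'x (Nat.cast_nonneg _)) hbi
  have hcard : ((univ.filter fun f : V → Fin 4 => ∃ (b : Fin K → V) (i : ℕ),
        x * Fintype.card V <
        |(((P.filter fun a => (univ.filter fun j => G.Adj (b j) a).card ≤ i).filter
            fun v => f (ρ v) ∈ I v).card : ℝ) -
          (∑ v ∈ P.filter (fun a => (univ.filter fun j => G.Adj (b j) a).card ≤ i),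
            ((I v).card : ℝ)) / 4|).card : ℝ) ≤
      ((n : ℝ) ^ K * (K + 1)) * (4 * (4 : ℝ) ^ n * Real.exp (-(x' ^ 2 * n / 16))) := by
    have h3 := (card_le_card hsub).trans card_biUnion_le
    have h4 : ((univ.filter fun f : V → Fin 4 => ∃ (b : Fin K → V) (i : ℕ),
        x * Fintype.card V <
        |(((P.filter fun a => (univ.filter fun j => G.Adj (b j) a).card ≤ i).filter
            fun v => f (ρ v) ∈ I v).card : ℝ) -
          (∑ v ∈ P.filter (fun a => (univ.filter fun j => G.Adj (b j) a).card ≤ i),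
            ((I v).card : ℝ)) / 4|).card : ℝ) ≤ ∑ o, ((B o).card : ℝ) := by
      exact_mod_cast h3
    refine h4.trans ((sum_le_sum fun o _ => hBc o).trans (le_of_eq ?_))
    rw [sum_const, card_univ, Fintype.card_prod, Fintype.card_fun, Fintype.card_fin,
      Fintype.card_fin, nsmul_eq_mul, ← hn]
    push_cast
    ring
  obtain ⟨e, he⟩ : ∃ e : ℝ, e = Real.exp (-(a * n)) := ⟨_, rfl⟩
  have he0 : 0 < e := by
    rw [he]
    exact Real.exp_pos _
  have hee : Real.exp (-(x' ^ 2 * n / 16)) = e * e := by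
    rw [he, ← Real.exp_add]
    congr 1
    rw [ha]
    ring
  have hme : (m : ℝ) * (2 * e) ≤ 1 := by
    have h3 : a * n + 1 ≤ Real.exp (a * n) := Real.add_one_le_exp _
    have h4 : e * Real.exp (a * n) = 1 := by
      rw [he, ← Real.exp_add]
      simp
    have h5 : 2 * (m : ℝ) ≤ Real.exp (a * n) := by linarith
    have h6 : e * (2 * m) ≤ e * Real.exp (a * n) := mul_le_mul_of_nonneg_left h5 he0.le
    linarith
  rw [hee] at hcard
  rw [← he] at hnum
  rw [← hn]
  rw [← hn] at hcard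
  obtain ⟨Ω, hΩ⟩ : ∃ Ω : ℝ, Ω = (4 : ℝ) ^ n := ⟨_, rfl⟩
  have hΩp : 0 < Ω := by
    rw [hΩ]
    positivity
  rw [← hΩ] at hcard ⊢
  obtain ⟨q, hq⟩ : ∃ q : ℝ, q = (n : ℝ) ^ K * (K + 1) := ⟨_, rfl⟩
  have hq0 : 0 ≤ q := by
    rw [hq]
    positivity
  rw [← hq] at hcard hnum
  have hm0 : (0 : ℝ) ≤ m := Nat.cast_nonneg _
  refine lt_of_le_of_lt (mul_le_mul_of_nonneg_left hcard hm0) ?_
  have h3 : (m : ℝ) * (q * (4 * Ω * (e * e))) = ((m : ℝ) * (2 * e)) * (q * (2 * e)) * Ω := by ring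
  rw [h3]
  have h4 : 0 ≤ q * (2 * e) := by positivity
  have h5 : ((m : ℝ) * (2 * e)) * (q * (2 * e)) ≤ 1 * (q * (2 * e)) :=
    mul_le_mul_of_nonneg_right hme h4
  have h6 : ((m : ℝ) * (2 * e)) * (q * (2 * e)) < 1 := by linarith
  have h7 := mul_lt_mul_of_pos_right h6 hΩp
  linarith

end Pool.Agent.H65.SPL
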