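import Mathlib
import Pool.Agent.H65.SPL.Un
import Pool.Agent.H65.SPL.Qt

/-!
SpS: the sampling properties hold for most `f`. Use the STATEMENTS of `spU` (`Un.lean`), `spQt`, `qv_card1`, `qv_card2`, `rp_inj` (`Qt.lean`).

Proof. Let `n := card V`, `x := η * (c / 2)`, so `x n ≤ η * #(pt nd (2 i)) = η * #(pt nd (2 i + 1))` (the latter for `¬ ty i`). Let `m' := 12 * m * (⌈2 / c⌉₊ + 1)` (so `12 m k ≤ m'`) and take `n0` as the maximum of the two `n0` of `spU KE m' x` and `spU KB m' x`.
For `i < k`, `j < 4` apply `spU` (the theorem for the graph `G`, `ρ := rp τ E`, `rp_inj`) to `P := pt nd (2 i)` and to `P := pt nd (2 i + 1)`, with `I v := univ.filter fun g => qv (ty (nd v / 2)) (v ∈ E) g = j`, with `KE` and with `KB`: let `B (i, j, 0)`, `B (i, j, 1)`, `B (i, j, 2)` be the three sets of bad `f`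
(`KE` and `2 i`; `KB` and `2 i`; `KB` and `2 i + 1`). If `f` is in none of them then the sampling properties hold: let `T := {a : #{j : G.Adj (b j) a} ≤ i'}`, `X := qs nd qq i j`.
 `ty i`: `nd v / 2 = i` iff `nd v = 2 i` (as `pt nd (2 i + 1) = ∅`), so `X.filter T = ((pt nd (2 i)).filter T).filter fun v => f (rp τ E v) ∈ I v`, and `∑_{v ∈ (pt nd (2 i)).filter T} #(I v) = #((pt nd (2 i)).filter T)` (`qv_card1`).
 `¬ ty i`, `j = 0` or `2`: an element of `X` has `nd v = 2 i` (if `nd v = 2 i + 1` then `qq v` is `1` or `3` by `spQt`), `v ∈ E` by `Pai.b0`, `#(I v) = 2` (`qv_card2`); same computation, the sum is `2 * #(..)`, divided by 4. `j = 1` or `3`: `nd v = 2 i + 1`, `v ∉ E`.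
 So the set of bad `f` is contained in the union of the `3 * 4 * k` sets `B`, and `m * 12 k * max #B ≤ m' * max #B < 4 ^ n` (for `k = 0` the set is empty and the claim is `0 < 4 ^ n`).
-/

set_option autoImplicit false

namespace Pool.Agent.H65.SPL

open Finset Classical
open Pool.Agent.H71.DN Pool.Agent.H71.DX Pool.Agent.H71.DR Pool.Agent.H71.HL Pool.Agent.H71.DC
open Pool.Agent.H71.TD

private theorem spS_key {V : Type} [Fintype V] (G : SimpleGraph V) (P Q X : Finset V) (y η x : ℝ)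
    (K : ℕ) (ρ : V → V) (f : V → Fin 4) (I : V → Finset (Fin 4))
    (hX : ∀ v, v ∈ X ↔ v ∈ P ∧ f (ρ v) ∈ I v) (hI : ∀ v ∈ P, ((I v).card : ℝ) = 4 * y)
    (hx : x * Fintype.card V ≤ η * P.card)
    (hf : ¬ ∃ (b : Fin K → V) (i : ℕ),
        x * Fintype.card V <
        |(((P.filter fun a => (univ.filter fun j => G.Adj (b j) a).card ≤ i).filter
            fun v => f (ρ v) ∈ I v).card : ℝ) -
          (∑ v ∈ P.filter (fun a => (univ.filter fun j => G.Adj (b j) a).card ≤ i),
            ((I v).card : ℝ)) / 4|) :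
    SmPQ G P Q X y η K := by
  intro b _ i
  have h0 : |(((P.filter fun a => (univ.filter fun j => G.Adj (b j) a).card ≤ i).filter
            fun v => f (ρ v) ∈ I v).card : ℝ) -
          (∑ v ∈ P.filter (fun a => (univ.filter fun j => G.Adj (b j) a).card ≤ i),
            ((I v).card : ℝ)) / 4| ≤ x * Fintype.card V := by
    by_contra hcon
    exact hf ⟨b, i, not_le.mp hcon⟩
  have h1 : (X.filter fun a => (univ.filter fun j => G.Adj (b j) a).card ≤ i) =
      ((P.filter fun a => (univ.filter fun j => G.Adj (b j) a).card ≤ i).filter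
            fun v => f (ρ v) ∈ I v) := by
    ext v
    simp only [Finset.mem_filter, hX v]
    constructor
    · rintro ⟨⟨h1, h2⟩, h3⟩
      exact ⟨⟨h1, h3⟩, h2⟩
    · rintro ⟨⟨h1, h3⟩, h2⟩
      exact ⟨⟨h1, h2⟩, h3⟩
  have h2 : (∑ v ∈ P.filter (fun a => (univ.filter fun j => G.Adj (b j) a).card ≤ i),
            ((I v).card : ℝ)) =
      4 * y * ((P.filter fun a => (univ.filter fun j => G.Adj (b j) a).card ≤ i).card : ℝ) := by
    rw [Finset.sum_congr rfl (fun v hv => hI v (Finset.mem_filter.mp hv).1), Finset.sum_const,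
      nsmul_eq_mul]
    ring
  rw [h1]
  rw [h2] at h0
  have h3 : 4 * y * ((P.filter fun a => (univ.filter fun j => G.Adj (b j) a).card ≤ i).card : ℝ) / 4
      = y * ((P.filter fun a => (univ.filter fun j => G.Adj (b j) a).card ≤ i).card : ℝ) := by
    ring
  rw [h3] at h0
  exact le_trans h0 hx

theorem spS (c η : ℝ) (KE KB m : ℕ) (hc : 0 < c) (hη : 0 < η) :
    ∃ n0 : ℕ, ∀ (V : Type) [Fintype V] (G : SimpleGraph V) (k : ℕ) (ty : ℕ → Prop) (nd : V → ℕ)
      (τ : V → V) (E : Finset V), Pai k ty nd τ E → n0 ≤ Fintype.card V → (k : ℝ) * c ≤ 2 →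
      (∀ i < k, c / 2 * Fintype.card V ≤ ((pt nd (2 * i)).card : ℝ)) →
      (∀ i < k, ty i → pt nd (2 * i + 1) = ∅) →
      (∀ i < k, ¬ ty i → (pt nd (2 * i)).card = (pt nd (2 * i + 1)).card) →
      (m : ℝ) * ((univ.filter fun f : V → Fin 4 =>
        ¬ ((∀ i < k, ty i → ∀ j < 4, SmPQ G (pt nd (2 * i)) (pt nd (2 * i))
            (qs nd (qq k ty nd τ E f) i j) (1 / 4) η KE) ∧
          (∀ i < k, ¬ ty i → ∀ j, (j = 0 ∨ j = 2) → SmPQ G (pt nd (2 * i)) (pt nd (2 * i + 1))
            (qs nd (qq k ty nd τ E f) i j) (1 / 2) η KB) ∧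
          (∀ i < k, ¬ ty i → ∀ j, (j = 1 ∨ j = 3) → SmPQ G (pt nd (2 * i + 1)) (pt nd (2 * i))
            (qs nd (qq k ty nd τ E f) i j) (1 / 2) η KB))).card : ℝ) <
        (4 : ℝ) ^ Fintype.card V := by
  classical
  set N : ℕ := ⌈2 / c⌉₊ with hN
  set M : ℕ := 12 * m * (N + 1) with hM
  set x : ℝ := η * (c / 2) with hx
  have hx0 : 0 < x := by positivity
  obtain ⟨n1, H1⟩ := spU KE M x hx0
  obtain ⟨n2, H2⟩ := spU KB M x hx0
  refine ⟨max n1 n2, ?_⟩
  intro V _ G k ty nd τ E hP hn hkc hsz hty hnty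
  have hn1 : n1 ≤ Fintype.card V := le_trans (le_max_left _ _) hn
  have hn2 : n2 ≤ Fintype.card V := le_trans (le_max_right _ _) hn
  obtain ⟨ri1, ri2⟩ := rp_inj hP
  have hkN : k ≤ N := by
    have h1 : (k : ℝ) ≤ 2 / c := by
      rw [le_div_iff₀ hc]
      exact hkc
    have h2 : (k : ℝ) ≤ (N : ℝ) := le_trans h1 (Nat.le_ceil _)
    exact_mod_cast h2
  -- the value sets
  set I : ℕ → V → Finset (Fin 4) := fun j v =>
    univ.filter fun g : Fin 4 => qv (ty (nd v / 2)) (v ∈ E) g = j with hI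
  -- the bad sets
  set Bd : ℕ → Finset V → ℕ → Finset (V → Fin 4) := fun K P j =>
    univ.filter fun f : V → Fin 4 => ∃ (b : Fin K → V) (i : ℕ),
        x * Fintype.card V <
        |(((P.filter fun a => (univ.filter fun j => G.Adj (b j) a).card ≤ i).filter
            fun v => f (rp τ E v) ∈ I j v).card : ℝ) -
          (∑ v ∈ P.filter (fun a => (univ.filter fun j => G.Adj (b j) a).card ≤ i),
            ((I j v).card : ℝ)) / 4| with hBd
  have hE : ∀ P j, (M : ℝ) * ((Bd KE P j).card : ℝ) < (4 : ℝ) ^ Fintype.card V := by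
    intro P j
    exact H1 V G (rp τ E) E ri1 ri2 hn1 P (I j)
  have hB : ∀ P j, (M : ℝ) * ((Bd KB P j).card : ℝ) < (4 : ℝ) ^ Fintype.card V := by
    intro P j
    exact H2 V G (rp τ E) E ri1 ri2 hn2 P (I j)
  set Bt : ℕ → ℕ → Finset (V → Fin 4) := fun i j =>
    Bd KE (pt nd (2 * i)) j ∪ (Bd KB (pt nd (2 * i)) j ∪ Bd KB (pt nd (2 * i + 1)) j) with hBt
  have hmem : ∀ i v, v ∈ pt nd i ↔ nd v = i := by
    intro i v
    simp [pt]
  have hqs : ∀ (f : V → Fin 4) i j v, v ∈ qs nd (qq k ty nd τ E f) i j ↔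
      nd v / 2 = i ∧ qq k ty nd τ E f v = j := by
    intro f i j v
    simp [qs]
  have hqq : ∀ (f : V → Fin 4) v, nd v < 2 * k → qq k ty nd τ E f v =
      qv (ty (nd v / 2)) (v ∈ E) (f (rp τ E v)) := by
    intro f v hv
    simp only [qq]
    rw [if_pos hv]
  have hImem : ∀ (f : V → Fin 4) v j, f (rp τ E v) ∈ I j v ↔
      qv (ty (nd v / 2)) (v ∈ E) (f (rp τ E v)) = j := by
    intro f v j
    simp [hI]
  have hsub : (univ.filter fun f : V → Fin 4 =>
        ¬ ((∀ i < k, ty i → ∀ j < 4, SmPQ G (pt nd (2 * i)) (pt nd (2 * i))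
            (qs nd (qq k ty nd τ E f) i j) (1 / 4) η KE) ∧
          (∀ i < k, ¬ ty i → ∀ j, (j = 0 ∨ j = 2) → SmPQ G (pt nd (2 * i)) (pt nd (2 * i + 1))
            (qs nd (qq k ty nd τ E f) i j) (1 / 2) η KB) ∧
          (∀ i < k, ¬ ty i → ∀ j, (j = 1 ∨ j = 3) → SmPQ G (pt nd (2 * i + 1)) (pt nd (2 * i))
            (qs nd (qq k ty nd τ E f) i j) (1 / 2) η KB))) ⊆
      (range k).biUnion fun i => (range 4).biUnion fun j => Bt i j := by
    intro f hf
    by_contra hcon
    have hnot : ∀ i < k, ∀ j < 4, f ∉ Bt i j := by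
      intro i hi j hj hmem'
      exact hcon (Finset.mem_biUnion.mpr ⟨i, Finset.mem_range.mpr hi,
        Finset.mem_biUnion.mpr ⟨j, Finset.mem_range.mpr hj, hmem'⟩⟩)
    have hnE : ∀ i < k, ∀ j < 4, f ∉ Bd KE (pt nd (2 * i)) j := fun i hi j hj h =>
      hnot i hi j hj (Finset.mem_union_left _ h)
    have hnB0 : ∀ i < k, ∀ j < 4, f ∉ Bd KB (pt nd (2 * i)) j := fun i hi j hj h =>
      hnot i hi j hj (Finset.mem_union_right _ (Finset.mem_union_left _ h))
    have hnB1 : ∀ i < k, ∀ j < 4, f ∉ Bd KB (pt nd (2 * i + 1)) j := fun i hi j hj h =>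
      hnot i hi j hj (Finset.mem_union_right _ (Finset.mem_union_right _ h))
    refine (Finset.mem_filter.mp hf).2 ⟨?_, ?_, ?_⟩
    · intro i hi hti j hj
      refine spS_key G _ _ _ (1 / 4) η x KE (rp τ E) f (I j) ?_ ?_ ?_ ?_
      · intro v
        rw [hqs, hmem, hImem]
        constructor
        · rintro ⟨h1, h2⟩
          have h3 : nd v ≠ 2 * i + 1 := by
            intro h
            have h4 : v ∈ pt nd (2 * i + 1) := (hmem _ _).mpr h
            rw [hty i hi hti] at h4
            exact absurd h4 (Finset.notMem_empty _)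
          have h5 : nd v = 2 * i := by omega
          rw [hqq f v (by omega)] at h2
          exact ⟨h5, h2⟩
        · rintro ⟨h1, h2⟩
          rw [hqq f v (by omega)]
          exact ⟨by omega, h2⟩
      · intro v hv
        have h1 : nd v = 2 * i := (hmem _ _).mp hv
        have h2 : ty (nd v / 2) := by
          rw [show nd v / 2 = i by omega]
          exact hti
        have h3 : (I j v).card = 1 := qv_card1 _ _ h2 j hj
        rw [h3]
        norm_num
      · have := hsz i hi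
        rw [hx]
        nlinarith [this, hη]
      · intro hex
        exact hnE i hi j hj (Finset.mem_filter.mpr ⟨Finset.mem_univ _, hex⟩)
    · intro i hi hti j hj
      have hj4 : j < 4 := by omega
      refine spS_key G _ _ _ (1 / 2) η x KB (rp τ E) f (I j) ?_ ?_ ?_ ?_
      · intro v
        rw [hqs, hmem, hImem]
        constructor
        · rintro ⟨h1, h2⟩
          have h3 : nd v ≠ 2 * i + 1 := by
            intro h
            rcases ((spQt hP f).2.2.1 i hi hti).2 v h with h4 | h4 <;> omega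
          have h5 : nd v = 2 * i := by omega
          rw [hqq f v (by omega)] at h2
          exact ⟨h5, h2⟩
        · rintro ⟨h1, h2⟩
          rw [hqq f v (by omega)]
          exact ⟨by omega, h2⟩
      · intro v hv
        have h1 : nd v = 2 * i := (hmem _ _).mp hv
        have h2 : ¬ ty (nd v / 2) := by
          rw [show nd v / 2 = i by omega]
          exact hti
        have h3 : (I j v).card = 2 := qv_card2 _ _ h2 j (Or.inl ⟨hP.b0 i hi hti v h1, hj⟩)
        rw [h3]
        norm_num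
      · have := hsz i hi
        rw [hx]
        nlinarith [this, hη]
      · intro hex
        exact hnB0 i hi j hj4 (Finset.mem_filter.mpr ⟨Finset.mem_univ _, hex⟩)
    · intro i hi hti j hj
      have hj4 : j < 4 := by omega
      refine spS_key G _ _ _ (1 / 2) η x KB (rp τ E) f (I j) ?_ ?_ ?_ ?_
      · intro v
        rw [hqs, hmem, hImem]
        constructor
        · rintro ⟨h1, h2⟩
          have h3 : nd v ≠ 2 * i := by
            intro h
            rcases ((spQt hP f).2.2.1 i hi hti).1 v h with h4 | h4 <;> omega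
          have h5 : nd v = 2 * i + 1 := by omega
          rw [hqq f v (by omega)] at h2
          exact ⟨h5, h2⟩
        · rintro ⟨h1, h2⟩
          rw [hqq f v (by omega)]
          exact ⟨by omega, h2⟩
      · intro v hv
        have h1 : nd v = 2 * i + 1 := (hmem _ _).mp hv
        have h2 : ¬ ty (nd v / 2) := by
          rw [show nd v / 2 = i by omega]
          exact hti
        have h3 : (I j v).card = 2 := qv_card2 _ _ h2 j (Or.inr ⟨hP.b1 i hi hti v h1, hj⟩)
        rw [h3]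
        norm_num
      · have h1 := hsz i hi
        have h2 : ((pt nd (2 * i)).card : ℝ) = ((pt nd (2 * i + 1)).card : ℝ) := by
          exact_mod_cast hnty i hi hti
        rw [h2] at h1
        rw [hx]
        nlinarith [h1, hη]
      · intro hex
        exact hnB1 i hi j hj4 (Finset.mem_filter.mpr ⟨Finset.mem_univ _, hex⟩)
  -- the count
  have hBtc : ∀ i j, (M : ℝ) * ((Bt i j).card : ℝ) ≤ 3 * (4 : ℝ) ^ Fintype.card V := by
    intro i j
    have h1 : ((Bt i j).card : ℝ) ≤ ((Bd KE (pt nd (2 * i)) j).card : ℝ) +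
        (((Bd KB (pt nd (2 * i)) j).card : ℝ) + ((Bd KB (pt nd (2 * i + 1)) j).card : ℝ)) := by
      have h2 : (Bt i j).card ≤ (Bd KE (pt nd (2 * i)) j).card +
        ((Bd KB (pt nd (2 * i)) j).card + (Bd KB (pt nd (2 * i + 1)) j).card) :=
        le_trans (Finset.card_union_le _ _) (Nat.add_le_add_left (Finset.card_union_le _ _) _)
      exact_mod_cast h2
    have h3 := hE (pt nd (2 * i)) j
    have h4 := hB (pt nd (2 * i)) j
    have h5 := hB (pt nd (2 * i + 1)) j
    have h6 : (0 : ℝ) ≤ (M : ℝ) := Nat.cast_nonneg _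
    calc (M : ℝ) * ((Bt i j).card : ℝ) ≤ (M : ℝ) * (((Bd KE (pt nd (2 * i)) j).card : ℝ) +
        (((Bd KB (pt nd (2 * i)) j).card : ℝ) + ((Bd KB (pt nd (2 * i + 1)) j).card : ℝ))) :=
          mul_le_mul_of_nonneg_left h1 h6
      _ = (M : ℝ) * ((Bd KE (pt nd (2 * i)) j).card : ℝ) +
        ((M : ℝ) * ((Bd KB (pt nd (2 * i)) j).card : ℝ) +
          (M : ℝ) * ((Bd KB (pt nd (2 * i + 1)) j).card : ℝ)) := by ring
      _ ≤ 3 * (4 : ℝ) ^ Fintype.card V := by linarith
  have hcard : (((range k).biUnion fun i => (range 4).biUnion fun j => Bt i j).card : ℝ) ≤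
      ∑ i ∈ range k, ∑ j ∈ range 4, ((Bt i j).card : ℝ) := by
    have h1 : ((range k).biUnion fun i => (range 4).biUnion fun j => Bt i j).card ≤
      ∑ i ∈ range k, ∑ j ∈ range 4, (Bt i j).card :=
      le_trans Finset.card_biUnion_le (Finset.sum_le_sum fun i _ => Finset.card_biUnion_le)
    exact_mod_cast h1
  have hsum : (M : ℝ) * (∑ i ∈ range k, ∑ j ∈ range 4, ((Bt i j).card : ℝ)) ≤
      12 * (k : ℝ) * (4 : ℝ) ^ Fintype.card V := by
    rw [Finset.mul_sum]
    have h1 : ∀ i ∈ range k, (M : ℝ) * ∑ j ∈ range 4, ((Bt i j).card : ℝ) ≤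
        12 * (4 : ℝ) ^ Fintype.card V := by
      intro i _
      rw [Finset.mul_sum]
      refine le_trans (Finset.sum_le_sum fun j _ => hBtc i j) ?_
      rw [Finset.sum_const, Finset.card_range, nsmul_eq_mul]
      have : ((4 : ℕ) : ℝ) = 4 := by norm_num
      rw [this]
      linarith
    refine le_trans (Finset.sum_le_sum h1) ?_
    rw [Finset.sum_const, Finset.card_range, nsmul_eq_mul]
    linarith
  have hfin := le_trans (Nat.cast_le (α := ℝ).mpr (Finset.card_le_card hsub)) hcard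
  refine lt_of_le_of_lt (mul_le_mul_of_nonneg_left hfin (Nat.cast_nonneg m)) ?_
  generalize (∑ i ∈ range k, ∑ j ∈ range 4, ((Bt i j).card : ℝ)) = S at hsum
  have hMr : (M : ℝ) = 12 * (m : ℝ) * ((N : ℝ) + 1) := by
    rw [hM]
    push_cast
    ring
  rw [hMr] at hsum
  have hp : (0 : ℝ) < (4 : ℝ) ^ Fintype.card V := by positivity
  have hkN' : (k : ℝ) ≤ (N : ℝ) := by exact_mod_cast hkN
  have hN1 : (0 : ℝ) < (N : ℝ) + 1 := by positivity
  have h7 : ((N : ℝ) + 1) * ((m : ℝ) * S) ≤ (k : ℝ) * (4 : ℝ) ^ Fintype.card V := by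
    nlinarith [hsum]
  have h8 : (k : ℝ) * (4 : ℝ) ^ Fintype.card V < ((N : ℝ) + 1) * (4 : ℝ) ^ Fintype.card V := by
    apply mul_lt_mul_of_pos_right _ hp
    linarith
  exact lt_of_mul_lt_mul_left (lt_of_le_of_lt h7 h8) hN1.le

end Pool.Agent.H65.SPL
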